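import Pool.Agent.V11225.AV.Geo

/-!
# The configuration of a clique avoids the obstacles
-/

namespace Pool.Agent.V11225.AV

/-- conditions on the parameters -/
structure Good (B G M w H k : ℕ) : Prop where
  hB : 3 * (1 + w) * H < B
  hG : 6 * w + 4 < G
  hMG : M ≤ G
  hMw : M * M ≤ w
  hH : ∀ i < k, ∀ j < k, hg G i j ≤ H
  hMH : M ≤ H

/-- labels of points: column and line -/
abbrev Idx := ℕ × ℕ × ℕ

/-- valid labels -/
def Val (M k : ℕ) (x : Idx) : Prop :=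
  ((x.1 = 1 ∨ x.1 = 3 ∨ x.1 = 5 ∨ x.1 = 7) ∧ x.2.1 < M ∧ x.2.2 = 0) ∨
  ((x.1 = 2 ∨ x.1 = 4 ∨ x.1 = 6) ∧ x.2.1 ≤ x.2.2 ∧ x.2.2 < k)

/-- the code of a label -/
def cd (G : ℕ) (o : ℕ → ℕ → ℕ) (x : Idx) : Cd :=
  if x.1 % 2 = 1 then (x.1, x.2.1 * x.2.1, x.2.1)
  else (x.1, o x.1 x.2.1 + o x.1 x.2.2, hg G x.2.1 x.2.2)

/-- labels of points on the same horizontal line -/
def Line (x y : Idx) : Prop := x.1 % 2 = y.1 % 2 ∧ x.2.1 = y.2.1 ∧ x.2.2 = y.2.2

/-- labels of points on a line in a column -/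
def Ver (x y z : Idx) : Prop :=
  x.1 = y.1 ∧ y.1 = z.1 ∧ x.1 % 2 = 0 ∧ Rel x.2.1 x.2.2 y.2.1 y.2.2 z.2.1 z.2.2

def Col (x y z : Idx) : Prop := (Line x y ∧ Line y z) ∨ Ver x y z

theorem pow_col {B w c1 c2 d1 d2 : ℕ} (hB : w + 1 < B) (h1 : 1 ≤ c1) (hd : d1 ≤ w)
    (h : c1 < c2) : B ^ c1 + d1 < B ^ c2 + d2 := by
  have h2 : B ^ (c1 + 1) ≤ B ^ c2 := Nat.pow_le_pow_right (by omega) h
  have h3 : B ≤ B ^ c1 := Nat.le_self_pow (by omega) B
  have h4 : 2 * B ^ c1 ≤ B ^ (c1 + 1) := by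
    rw [pow_succ, mul_comm]
    exact Nat.mul_le_mul_left _ (by omega)
  omega

theorem vdm {a b c : ℤ} (h : D (a * a) a (b * b) b (c * c) c = 0) : a = b ∨ b = c ∨ a = c := by
  have h1 : (a - b) * ((b - c) * (a - c)) = 0 := by
    have : (a - b) * ((b - c) * (a - c)) = D (a * a) a (b * b) b (c * c) c := by unfold D; ring
    rw [this, h]
  rcases mul_eq_zero.1 h1 with h2 | h2
  · left; linarith
  · rcases mul_eq_zero.1 h2 with h3 | h3
    · right; left; linarith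
    · right; right; linarith

theorem sign_flip {a b : ℤ} (h : a ≠ b)
    (h1 : -SignType.sign (a - b) = -SignType.sign (b - a)) : False := by
  rcases lt_or_gt_of_ne h with h2 | h2
  · rw [sign_neg (by omega), sign_pos (by omega)] at h1
    revert h1; decide
  · rw [sign_pos (by omega), sign_neg (by omega)] at h1
    revert h1; decide

section

variable {B G M w H k : ℕ} {o : ℕ → ℕ → ℕ} (hP : Good B G M w H k)
  (hw : ∀ c, (c = 2 ∨ c = 4 ∨ c = 6) → ∀ i < k, ∀ j < k, o c i + o c j ≤ w)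
  (hS : ∀ c, (c = 2 ∨ c = 4 ∨ c = 6) → ∀ i j i' j', i ≤ j → j < k → i' ≤ j' → j' < k →
    o c i + o c j = o c i' + o c j' → i = i' ∧ j = j')

include hP in
theorem hH0 {x : Idx} (hx : Val M k x) : 1 ≤ H := by
  rcases hx with ⟨_, h, _⟩ | ⟨_, h1, h2⟩
  · have := hP.hMH; omega
  · have h3 := hP.hH _ (lt_of_le_of_lt h1 h2) _ h2
    have h4 : 1 ≤ G ^ (x.2.1 + 1) := Nat.one_le_pow _ _ (by have := hP.hG; omega)
    unfold hg at h3
    omega

include hP in
theorem w_lt {x : Idx} (hx : Val M k x) : w + 1 < B := by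
  have h1 := hH0 hP hx
  have h2 := hP.hB
  nlinarith

theorem cd_fst (x : Idx) : (cd G o x).1 = x.1 := by
  unfold cd; split_ifs <;> rfl

theorem col_pos {x : Idx} (hx : Val M k x) : 1 ≤ x.1 := by
  rcases hx with ⟨h, _⟩ | ⟨h, _⟩ <;> omega

include hP hw in
theorem cd_off {x : Idx} (hx : Val M k x) : (cd G o x).2.1 ≤ w := by
  unfold cd
  rcases hx with ⟨h, h1, _⟩ | ⟨h, h1, h2⟩
  · rw [if_pos (by omega)]
    exact (Nat.mul_le_mul h1.le h1.le).trans hP.hMw
  · rw [if_neg (by omega)]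
    exact hw _ h _ (by omega) _ h2

include hP in
theorem cd_ht {x : Idx} (hx : Val M k x) : (cd G o x).2.2 ≤ H := by
  unfold cd
  rcases hx with ⟨h, h1, _⟩ | ⟨h, h1, h2⟩
  · rw [if_pos (by omega)]
    exact h1.le.trans hP.hMH
  · rw [if_neg (by omega)]
    exact hP.hH _ (by omega) _ h2

include hP in
theorem hg_big (i j : ℕ) : M < hg G i j := by
  have h1 := hP.hMG
  have h2 := hP.hG
  unfold hg
  have h3 : G ≤ G ^ (i + 1) := Nat.le_self_pow (by omega) G
  have h4 : 1 ≤ G ^ (j + 1) := Nat.one_le_pow _ _ (by omega)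
  omega

include hP in
theorem ht_iff {x y : Idx} (hx : Val M k x) (hy : Val M k y) :
    (cd G o x).2.2 = (cd G o y).2.2 ↔ Line x y := by
  unfold cd Line
  rcases hx with ⟨h, h1, h2⟩ | ⟨h, h1, h2⟩ <;> rcases hy with ⟨g, g1, g2⟩ | ⟨g, g1, g2⟩
  · rw [if_pos (by omega), if_pos (by omega)]
    simp only
    omega
  · rw [if_pos (by omega), if_neg (by omega)]
    have := hg_big hP y.2.1 y.2.2
    simp only
    omega
  · rw [if_neg (by omega), if_pos (by omega)]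
    have := hg_big hP x.2.1 x.2.2
    simp only
    omega
  · rw [if_neg (by omega), if_neg (by omega)]
    simp only
    constructor
    · intro h3
      have := hg_inj (by have := hP.hG; omega) (lt_of_le_of_lt h1 h2) h2 (lt_of_le_of_lt g1 g2) g2
        h1 g1 h3
      omega
    · rintro ⟨_, h3, h4⟩
      rw [h3, h4]

theorem ext_idx {x y : Idx} (h : Line x y) (h1 : x.1 = y.1) : x = y :=
  Prod.ext h1 (Prod.ext h.2.1 h.2.2)

include hP in
theorem cd_inj : Set.InjOn (cd G o) {x | Val M k x} := by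
  intro x hx y hy h
  have h1 : x.1 = y.1 := by rw [← cd_fst (G := G) (o := o) x, h, cd_fst]
  exact ext_idx ((ht_iff (o := o) hP hx hy).1 (by rw [h])) h1

include hP hw in
theorem not_col_of_line {x y z : Idx} (hx : Val M k x) (hy : Val M k y) (hz : Val M k z)
    (hxy : x ≠ y) (h1 : Line x y) (h2 : ¬ Line y z) :
    DD B (cd G o x) (cd G o y) (cd G o z) ≠ 0 := by
  have e1 := (ht_iff (o := o) hP hx hy).2 h1
  rw [DD_height12 B e1]
  intro h
  rcases mul_eq_zero.1 h with h3 | h3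
  · have hc : x.1 ≠ y.1 := fun h => hxy (ext_idx h1 h)
    rw [cd_fst, cd_fst] at h3
    have h4 : B ^ x.1 + (cd G o x).2.1 = B ^ y.1 + (cd G o y).2.1 := by
      have h5 : ((B ^ x.1 + (cd G o x).2.1 : ℕ) : ℤ) = ((B ^ y.1 + (cd G o y).2.1 : ℕ) : ℤ) := by
        push_cast
        linarith
      exact_mod_cast h5
    rcases lt_or_gt_of_ne hc with h6 | h6
    · have := pow_col (d2 := (cd G o y).2.1) (w_lt hP hx) (col_pos hx) (cd_off hP hw hx) h6
      omega
    · have := pow_col (d2 := (cd G o x).2.1) (w_lt hP hx) (col_pos hy) (cd_off hP hw hy) h6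
      omega
  · rw [e1] at h3
    exact h2 ((ht_iff (o := o) hP hy hz).1 (by omega))

include hP hw hS in
theorem col_of {x y z : Idx} (hx : Val M k x) (hy : Val M k y) (hz : Val M k z)
    (hxy : x ≠ y) (hyz : y ≠ z) (hxz : x ≠ z)
    (h : sg B (cd G o x) (cd G o y) (cd G o z) = 0) : Col x y z := by
  have h0 := sg_eq_zero.1 h
  by_cases l12 : Line x y
  · by_cases l23 : Line y z
    · exact Or.inl ⟨l12, l23⟩
    · exact absurd h0 (not_col_of_line hP hw hx hy hz hxy l12 l23)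
  by_cases l23 : Line y z
  · rw [DD_rot] at h0
    exact absurd h0 (not_col_of_line hP hw hy hz hx hyz l23 (by
      unfold Line at *; omega))
  by_cases l13 : Line x z
  · rw [DD_rot, DD_rot] at h0
    exact absurd h0 (not_col_of_line hP hw hz hx hy hxz.symm (by unfold Line at *; omega) l12)
  have n12 : (cd G o x).2.2 ≠ (cd G o y).2.2 := fun h => l12 ((ht_iff (o := o) hP hx hy).1 h)
  have n23 : (cd G o y).2.2 ≠ (cd G o z).2.2 := fun h => l23 ((ht_iff (o := o) hP hy hz).1 h)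
  have n13 : (cd G o x).2.2 ≠ (cd G o z).2.2 := fun h => l13 ((ht_iff (o := o) hP hx hz).1 h)
  by_cases hc : x.1 = y.1 ∧ y.1 = z.1
  · obtain ⟨c1, c2⟩ := hc
    by_cases hpar : x.1 % 2 = 1
    · exfalso
      unfold cd at h0 n12 n23 n13
      rw [if_pos hpar, if_pos (by omega), if_pos (by omega), c1, c2, DD_col] at h0
      rw [if_pos hpar, if_pos (by omega)] at n12 n13
      rw [if_pos (by omega), if_pos (by omega)] at n23
      push_cast at h0
      simp only at n12 n23 n13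
      rcases vdm h0 with h3 | h3 | h3
      · exact n12 (by exact_mod_cast h3)
      · exact n23 (by exact_mod_cast h3)
      · exact n13 (by exact_mod_cast h3)
    · right
      refine ⟨c1, c2, by omega, ?_⟩
      have hx' : (x.1 = 2 ∨ x.1 = 4 ∨ x.1 = 6) ∧ x.2.1 ≤ x.2.2 ∧ x.2.2 < k := by
        rcases hx with ⟨h, _⟩ | h
        · omega
        · exact h
      have hy' : (y.1 = 2 ∨ y.1 = 4 ∨ y.1 = 6) ∧ y.2.1 ≤ y.2.2 ∧ y.2.2 < k := by
        rcases hy with ⟨h, _⟩ | h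
        · omega
        · exact h
      have hz' : (z.1 = 2 ∨ z.1 = 4 ∨ z.1 = 6) ∧ z.2.1 ≤ z.2.2 ∧ z.2.2 < k := by
        rcases hz with ⟨h, _⟩ | h
        · omega
        · exact h
      obtain ⟨a1, a2, a3⟩ := hx'
      obtain ⟨b1, b2, b3⟩ := hy'
      obtain ⟨e1, e2, e3⟩ := hz'
      unfold cd at h0
      rw [if_neg hpar, if_neg (by omega), if_neg (by omega), c1, c2, DD_col] at h0
      have d12 : ¬ (x.2.1 = y.2.1 ∧ x.2.2 = y.2.2) := by unfold Line at l12; omega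
      have d23 : ¬ (y.2.1 = z.2.1 ∧ y.2.2 = z.2.2) := by unfold Line at l23; omega
      have d13 : ¬ (x.2.1 = z.2.1 ∧ x.2.2 = z.2.2) := by unfold Line at l13; omega
      have s12 : o z.1 x.2.1 + o z.1 x.2.2 ≠ o z.1 y.2.1 + o z.1 y.2.2 := fun h =>
        d12 (hS _ e1 _ _ _ _ a2 a3 b2 b3 h)
      have s23 : o z.1 y.2.1 + o z.1 y.2.2 ≠ o z.1 z.2.1 + o z.1 z.2.2 := fun h =>
        d23 (hS _ e1 _ _ _ _ b2 b3 e2 e3 h)
      have s13 : o z.1 x.2.1 + o z.1 x.2.2 ≠ o z.1 z.2.1 + o z.1 z.2.2 := fun h =>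
        d13 (hS _ e1 _ _ _ _ a2 a3 e2 e3 h)
      have w1 := hw _ e1 x.2.1 (by omega) x.2.2 a3
      have w2 := hw _ e1 y.2.1 (by omega) y.2.2 b3
      have w3 := hw _ e1 z.2.1 (by omega) z.2.2 e3
      generalize o z.1 x.2.1 + o z.1 x.2.2 = δ1 at *
      generalize o z.1 y.2.1 + o z.1 y.2.2 = δ2 at *
      generalize o z.1 z.2.1 + o z.1 z.2.2 = δ3 at *
      have hG := hP.hG
      have h4 : ((δ3 : ℤ) - δ2) * hg G x.2.1 x.2.2 + ((δ1 : ℤ) - δ3) * hg G y.2.1 y.2.2 +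
          ((δ2 : ℤ) - δ1) * hg G z.2.1 z.2.2 = 0 := by
        rw [← h0]
        unfold D
        ring
      have h5 := comb_zero (k := k) (by
        have q1 : |(δ3 : ℤ) - δ2| ≤ w := by rw [abs_le]; omega
        have q2 : |(δ1 : ℤ) - δ3| ≤ w := by rw [abs_le]; omega
        have q3 : |(δ2 : ℤ) - δ1| ≤ w := by rw [abs_le]; omega
        have q4 : ((6 * w + 4 : ℕ) : ℤ) < G := by exact_mod_cast hG
        push_cast at q4
        linarith) (by omega) a3 (by omega) b3 (by omega) e3 h4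
      exact rel_of (by omega) (by omega) (by omega) (by ring) (by omega) a3 (by omega) b3
        (by omega) e3 a2 b2 e2 h5 d12 d23 d13
  · exfalso
    have hK := K_ne (c1 := x.1) (c2 := y.1) (c3 := z.1) (y1 := (cd G o x).2.2)
      (y2 := (cd G o y).2.2) (y3 := (cd G o z).2.2) (by exact_mod_cast n12)
      (by exact_mod_cast n23) (by exact_mod_cast n13) hc
    have h1 := sg_eq hP.hB (p := cd G o x) (q := cd G o y) (r := cd G o z)
      (by rw [cd_fst]; exact col_pos hx) (cd_off hP hw hx) (cd_off hP hw hy) (cd_off hP hw hz)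
      (cd_ht hP hx) (cd_ht hP hy) (cd_ht hP hz) (by rw [cd_fst, cd_fst, cd_fst]; exact hK)
    rw [h] at h1
    rw [cd_fst, cd_fst, cd_fst] at h1
    rcases lt_or_gt_of_ne hK with h2 | h2
    · rw [sign_neg h2] at h1
      revert h1; decide
    · rw [sign_pos h2] at h1
      revert h1; decide

/-- `p`, `q` in the column `c`, the third point in a smaller column -/
theorem sg_left {p q r : Cd} (hB : 3 * (1 + w) * H < B) (hp : 1 ≤ p.1) (hpq : p.1 = q.1)
    (hr : r.1 < p.1) (hdp : p.2.1 ≤ w) (hdq : q.2.1 ≤ w) (hdr : r.2.1 ≤ w) (hyp : p.2.2 ≤ H)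
    (hyq : q.2.2 ≤ H) (hyr : r.2.2 ≤ H) (hne : p.2.2 ≠ q.2.2) :
    sg B p q r = -SignType.sign ((q.2.2 : ℤ) - p.2.2) := by
  have hK : K p.1 q.1 r.1 p.2.2 q.2.2 r.2.2 = (q.2.2 : ℤ) - p.2.2 := by
    unfold K
    rw [if_pos (by omega), if_pos (by omega), if_neg (by omega)]
    ring
  rw [sg_eq hB hp hdp hdq hdr hyp hyq hyr (by rw [hK]; omega), hK]

theorem sg_right {p q r : Cd} (hB : 3 * (1 + w) * H < B) (hp : 1 ≤ p.1) (hpq : p.1 = q.1)
    (hr : p.1 < r.1) (hdp : p.2.1 ≤ w) (hdq : q.2.1 ≤ w) (hdr : r.2.1 ≤ w) (hyp : p.2.2 ≤ H)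
    (hyq : q.2.2 ≤ H) (hyr : r.2.2 ≤ H) (hne : p.2.2 ≠ q.2.2) :
    sg B p q r = -SignType.sign ((p.2.2 : ℤ) - q.2.2) := by
  have hK : K p.1 q.1 r.1 p.2.2 q.2.2 r.2.2 = (p.2.2 : ℤ) - q.2.2 := by
    unfold K
    rw [if_neg (by omega), if_neg (by omega), if_pos (by omega)]
    ring
  rw [sg_eq hB hp hdp hdq hdr hyp hyq hyr (by rw [hK]; omega), hK]

include hP hw in
/-- two points `x`, `y` in the same column, but on different lines, are seen in different order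
from points in columns to the left and to the right -/
theorem flip {x y z z' : Idx} (hx : Val M k x) (hy : Val M k y) (hz : Val M k z)
    (hz' : Val M k z') (hxy : x.1 = y.1) (hne : ¬ Line x y) (h1 : z.1 < x.1) (h2 : x.1 < z'.1)
    (h : sg B (cd G o x) (cd G o y) (cd G o z) = sg B (cd G o x) (cd G o y) (cd G o z')) :
    False := by
  have n : (cd G o x).2.2 ≠ (cd G o y).2.2 := fun h => hne ((ht_iff (o := o) hP hx hy).1 h)
  rw [sg_left hP.hB (by rw [cd_fst]; exact col_pos hx) (by rw [cd_fst, cd_fst]; exact hxy)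
      (by rw [cd_fst, cd_fst]; exact h1) (cd_off hP hw hx) (cd_off hP hw hy) (cd_off hP hw hz)
      (cd_ht hP hx) (cd_ht hP hy) (cd_ht hP hz) n,
    sg_right hP.hB (by rw [cd_fst]; exact col_pos hx) (by rw [cd_fst, cd_fst]; exact hxy)
      (by rw [cd_fst, cd_fst]; exact h2) (cd_off hP hw hx) (cd_off hP hw hy) (cd_off hP hw hz')
      (cd_ht hP hx) (cd_ht hP hy) (cd_ht hP hz') n] at h
  exact sign_flip (by exact_mod_cast n.symm) h

/-! ### Combinatorics of the labels -/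

theorem four_line {x y z z' : Idx} (h1 : Col x y z) (h2 : Col x y z') (hne : z ≠ z') :
    Line x y ∧ Line x z ∧ Line x z' := by
  obtain ⟨c0, i0, j0⟩ := x
  obtain ⟨c1, i1, j1⟩ := y
  obtain ⟨c2, i2, j2⟩ := z
  obtain ⟨c3, i3, j3⟩ := z'
  have hne' : ¬ (c2 = c3 ∧ i2 = i3 ∧ j2 = j3) := by
    rintro ⟨rfl, rfl, rfl⟩
    exact hne rfl
  unfold Col Ver Rel Mid Line at *
  simp only at *
  omega

theorem no5 (g : Fin 5 → Idx) (hg : Function.Injective g) (hv : ∀ a, Val M k (g a))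
    (hl : ∀ a b, Line (g a) (g b)) : False := by
  have hc : ∀ a, (g a).1 / 2 < 4 := by
    intro a
    rcases hv a with ⟨h, _⟩ | ⟨h, _⟩ <;> omega
  obtain ⟨a, b, hab, h⟩ := Fintype.exists_ne_map_eq_of_card_lt
    (fun a : Fin 5 => (⟨(g a).1 / 2, hc a⟩ : Fin 4)) (by simp)
  have h1 : (g a).1 / 2 = (g b).1 / 2 := by
    have := congrArg Fin.val h
    exact this
  have h2 := (hl a b).1
  exact hab (hg (ext_idx (hl a b) (by omega)))

theorem full4 {x0 x1 x2 x3 : Idx} (v0 : Val M k x0) (v1 : Val M k x1) (v2 : Val M k x2)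
    (v3 : Val M k x3) (n01 : x0 ≠ x1) (n02 : x0 ≠ x2) (n03 : x0 ≠ x3) (n12 : x1 ≠ x2)
    (n13 : x1 ≠ x3) (n23 : x2 ≠ x3) (l1 : Line x0 x1) (l2 : Line x0 x2) (l3 : Line x0 x3) :
    x0.1 % 2 = 1 ∧ ∀ c, (c = 1 ∨ c = 3 ∨ c = 5 ∨ c = 7) →
      (x0.1 = c ∨ x1.1 = c ∨ x2.1 = c ∨ x3.1 = c) := by
  have m01 : x0.1 ≠ x1.1 := fun h => n01 (ext_idx l1 h)
  have m02 : x0.1 ≠ x2.1 := fun h => n02 (ext_idx l2 h)
  have m03 : x0.1 ≠ x3.1 := fun h => n03 (ext_idx l3 h)
  have m12 : x1.1 ≠ x2.1 := fun h => n12 (ext_idx (by unfold Line at *; omega) h)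
  have m13 : x1.1 ≠ x3.1 := fun h => n13 (ext_idx (by unfold Line at *; omega) h)
  have m23 : x2.1 ≠ x3.1 := fun h => n23 (ext_idx (by unfold Line at *; omega) h)
  have p1 := l1.1
  have p2 := l2.1
  have p3 := l3.1
  have cols : ∀ {x : Idx}, Val M k x → (x.1 = 1 ∨ x.1 = 3 ∨ x.1 = 5 ∨ x.1 = 7) ∨
      (x.1 = 2 ∨ x.1 = 4 ∨ x.1 = 6) := by
    intro x hx
    rcases hx with h | h
    · exact Or.inl h.1
    · exact Or.inr h.1
  have c0 := cols v0
  have c1 := cols v1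
  have c2 := cols v2
  have c3 := cols v3
  generalize x0.1 = a0 at *
  generalize x1.1 = a1 at *
  generalize x2.1 = a2 at *
  generalize x3.1 = a3 at *
  clear l1 l2 l3 n01 n02 n03 n12 n13 n23 v0 v1 v2 v3 cols
  have hodd : a0 % 2 = 1 := by omega
  refine ⟨hodd, ?_⟩
  intro c hc
  omega

end

end Pool.Agent.V11225.AV
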