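import Pool.Agent.V11225.AV.Comp

/-!
# The configuration of a clique avoids the obstacles: the three patterns
-/

namespace Pool.Agent.V11225.AV

section

variable {B G M w H k : ℕ} {o : ℕ → ℕ → ℕ} (hP : Good B G M w H k)
  (hw : ∀ c, (c = 2 ∨ c = 4 ∨ c = 6) → ∀ i < k, ∀ j < k, o c i + o c j ≤ w)
  (hS : ∀ c, (c = 2 ∨ c = 4 ∨ c = 6) → ∀ i j i' j', i ≤ j → j < k → i' ≤ j' → j' < k →
    o c i + o c j = o c i' + o c j' → i = i' ∧ j = j')

include hP hw hS

theorem noA (g : Fin 5 → Idx) (hg : Function.Injective g) (hv : ∀ a, Val M k (g a))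
    (h : ∀ a b c, sg B (cd G o (g a)) (cd G o (g b)) (cd G o (g c)) = 0) : False := by
  have n : ∀ a b, a ≠ b → g a ≠ g b := fun a b hab h => hab (hg h)
  have c : ∀ a, a ≠ 0 → a ≠ 1 → Col (g 0) (g 1) (g a) := fun a h0 h1 =>
    col_of hP hw hS (hv _) (hv _) (hv _) (n 0 1 (by decide)) (n 1 a h1.symm) (n 0 a h0.symm)
      (h _ _ _)
  have h1 := four_line (c 2 (by decide) (by decide)) (c 3 (by decide) (by decide))
    (n 2 3 (by decide))
  have h2 := four_line (c 2 (by decide) (by decide)) (c 4 (by decide) (by decide))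
    (n 2 4 (by decide))
  have h0 : ∀ a, Line (g 0) (g a) := by
    intro a
    fin_cases a
    · exact ⟨rfl, rfl, rfl⟩
    · exact h1.1
    · exact h1.2.1
    · exact h1.2.2
    · exact h2.2.2
  refine no5 g hg hv fun a b => ?_
  have h3 := h0 a
  have h4 := h0 b
  exact ⟨h3.1.symm.trans h4.1, h3.2.1.symm.trans h4.2.1, h3.2.2.symm.trans h4.2.2⟩

theorem noB (g : IB → Idx) (hg : Function.Injective g) (hv : ∀ a, Val M k (g a))
    (h : BadB fun a b c => sg B (cd G o (g a)) (cd G o (g b)) (cd G o (g c))) : False := by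
  obtain ⟨hZ, hp, hzw, hpp⟩ := h
  have n : ∀ a b, a ≠ b → g a ≠ g b := fun a b hab h => hab (hg h)
  -- the two full lines
  have full : ∀ b : Bool, ∃ t < M, ∀ c, (c = 1 ∨ c = 3 ∨ c = 5 ∨ c = 7) →
      ∃ r, g (Sum.inl (b, r)) = (c, t, 0) := by
    intro b
    have nn : ∀ r s : Fin 4, r ≠ s → g (Sum.inl (b, r)) ≠ g (Sum.inl (b, s)) := fun r s hrs =>
      n _ _ (by simpa using hrs)
    have c2 : Col (g (Sum.inl (b, 0))) (g (Sum.inl (b, 1))) (g (Sum.inl (b, 2))) :=
      col_of hP hw hS (hv _) (hv _) (hv _) (nn _ _ (by decide)) (nn _ _ (by decide))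
        (nn _ _ (by decide)) (hZ _ _ _ _)
    have c3 : Col (g (Sum.inl (b, 0))) (g (Sum.inl (b, 1))) (g (Sum.inl (b, 3))) :=
      col_of hP hw hS (hv _) (hv _) (hv _) (nn _ _ (by decide)) (nn _ _ (by decide))
        (nn _ _ (by decide)) (hZ _ _ _ _)
    obtain ⟨l1, l2, l3⟩ := four_line c2 c3 (nn _ _ (by decide))
    obtain ⟨f1, f2⟩ := full4 (hv (Sum.inl (b, 0))) (hv (Sum.inl (b, 1))) (hv (Sum.inl (b, 2)))
      (hv (Sum.inl (b, 3))) (nn _ _ (by decide)) (nn _ _ (by decide)) (nn _ _ (by decide))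
      (nn _ _ (by decide)) (nn _ _ (by decide)) (nn _ _ (by decide)) l1 l2 l3
    have hv0 : (g (Sum.inl (b, 0))).2.1 < M ∧ (g (Sum.inl (b, 0))).2.2 = 0 := by
      rcases hv (Sum.inl (b, 0)) with ⟨_, h⟩ | ⟨h, _⟩
      · exact h
      · omega
    refine ⟨(g (Sum.inl (b, 0))).2.1, hv0.1, fun c hc => ?_⟩
    rcases f2 c hc with h | h | h | h
    · exact ⟨0, Prod.ext h (Prod.ext rfl hv0.2)⟩
    · exact ⟨1, Prod.ext h (Prod.ext l1.2.1.symm (l1.2.2.symm.trans hv0.2))⟩
    · exact ⟨2, Prod.ext h (Prod.ext l2.2.1.symm (l2.2.2.symm.trans hv0.2))⟩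
    · exact ⟨3, Prod.ext h (Prod.ext l3.2.1.symm (l3.2.2.symm.trans hv0.2))⟩
  obtain ⟨t0, ht0, f0⟩ := full false
  obtain ⟨t1, ht1, f1⟩ := full true
  have ht : t0 ≠ t1 := by
    rintro rfl
    obtain ⟨r, hr⟩ := f0 1 (by omega)
    obtain ⟨s, hs⟩ := f1 1 (by omega)
    exact n (Sum.inl (false, r)) (Sum.inl (true, s)) (by simp) (hr.trans hs.symm)
  have hval : ∀ c t, (c = 1 ∨ c = 3 ∨ c = 5 ∨ c = 7) → t < M → Val M k (c, t, 0) :=
    fun c t hc ht => Or.inl ⟨hc, ht, rfl⟩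
  have hnl : ∀ c c', ¬ Line (c, t0, 0) (c', t1, 0) := fun c c' hl => ht hl.2.1
  -- the statements about points in the ruler
  have P1 : ∀ c, (c = 1 ∨ c = 3 ∨ c = 5 ∨ c = 7) →
      sg B (cd G o (c, t0, 0)) (cd G o (c, t1, 0)) (cd G o (g (Sum.inr 0))) =
      sg B (cd G o (c, t0, 0)) (cd G o (c, t1, 0)) (cd G o (g (Sum.inr 1))) := by
    intro c hc
    obtain ⟨r, hr⟩ := f0 c hc
    obtain ⟨s, hs⟩ := f1 c hc
    have := hzw (false, r) (true, s)
    simp only at this
    rw [hr, hs] at this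
    exact this
  have P2 : sg B (cd G o (g (Sum.inr 0))) (cd G o (g (Sum.inr 1))) (cd G o (1, t0, 0)) =
      sg B (cd G o (g (Sum.inr 0))) (cd G o (g (Sum.inr 1))) (cd G o (7, t0, 0)) := by
    obtain ⟨r, hr⟩ := f0 1 (by omega)
    obtain ⟨s, hs⟩ := f0 7 (by omega)
    have := hpp (false, r) (false, s)
    simp only at this
    rw [hr, hs] at this
    exact this
  have vp := hv (Sum.inr 0)
  have vq := hv (Sum.inr 1)
  have hpq := n (Sum.inr 0) (Sum.inr 1) (by decide)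
  have hcol := col_of hP hw hS vp vq (hv (Sum.inr 2)) hpq
    (n _ _ (by decide)) (n _ _ (by decide)) hp
  generalize g (Sum.inr 0) = p at *
  generalize g (Sum.inr 1) = q at *
  rcases hcol with ⟨hl, _⟩ | ⟨e1, _, e3, e4⟩
  · have hc : p.1 ≠ q.1 := fun h => hpq (ext_idx hl h)
    by_cases hpar : p.1 % 2 = 0
    · -- a family line
      have hp' : p.1 = 2 ∨ p.1 = 4 ∨ p.1 = 6 := by
        rcases vp with ⟨h, _⟩ | ⟨h, _⟩ <;> omega
      have hq' : q.1 = 2 ∨ q.1 = 4 ∨ q.1 = 6 := by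
        rcases vq with ⟨h, _⟩ | ⟨h, _⟩
        · have := hl.1; omega
        · exact h
      rcases lt_or_gt_of_ne hc with h1 | h1
      · exact flip hP hw (hval (p.1 + 1) t0 (by omega) ht0) (hval (p.1 + 1) t1 (by omega) ht1)
          vp vq rfl (hnl _ _) (by simp) (by simp only; omega) (P1 _ (by omega))
      · exact flip hP hw (hval (q.1 + 1) t0 (by omega) ht0) (hval (q.1 + 1) t1 (by omega) ht1)
          vq vp rfl (hnl _ _) (by simp) (by simp only; omega) (P1 _ (by omega)).symm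
    · -- a third line of the ruler
      have hp' : (p.1 = 1 ∨ p.1 = 3 ∨ p.1 = 5 ∨ p.1 = 7) ∧ p.2.1 < M ∧ p.2.2 = 0 := by
        rcases vp with h | ⟨h, _⟩
        · exact h
        · omega
      have hq' : (q.1 = 1 ∨ q.1 = 3 ∨ q.1 = 5 ∨ q.1 = 7) ∧ q.2.1 < M ∧ q.2.2 = 0 := by
        rcases vq with h | ⟨h, _⟩
        · exact h
        · have := hl.1; omega
      obtain ⟨cp, tp, zp⟩ := p
      obtain ⟨cq, tq, zq⟩ := q
      simp only at hp' hq' hc
      obtain ⟨a1, a2, rfl⟩ := hp'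
      obtain ⟨b1, b2, rfl⟩ := hq'
      have htt : tp = tq := hl.2.1
      subst htt
      -- the sign in one column does not depend on the column
      have same : ∀ c, (c = 1 ∨ c = 3 ∨ c = 5 ∨ c = 7) →
          sg B (cd G o (c, t0, 0)) (cd G o (c, t1, 0)) (cd G o (c, tp, 0)) =
          -SignType.sign (D (t0 * t0 : ℕ) t0 (t1 * t1 : ℕ) t1 (tp * tp : ℕ) tp) := by
        intro c hc
        unfold sg cd
        simp only
        rw [if_pos (by omega), if_pos (by omega), if_pos (by omega), DD_col]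
      have hne0 : (cd G o (cp, t0, 0)).2.2 ≠ (cd G o (cp, t1, 0)).2.2 := fun h =>
        hnl _ _ ((ht_iff (o := o) hP (hval cp t0 a1 ht0) (hval cp t1 a1 ht1)).1 h)
      have ht' : ∀ c t, (c = 1 ∨ c = 3 ∨ c = 5 ∨ c = 7) → (cd G o (c, t, 0)).2.2 = t := by
        intro c t hc
        unfold cd
        simp only
        rw [if_pos (by omega)]
      have left : ∀ c c', (c = 1 ∨ c = 3 ∨ c = 5 ∨ c = 7) → (c' = 1 ∨ c' = 3 ∨ c' = 5 ∨ c' = 7) →
          c' < c → sg B (cd G o (c, t0, 0)) (cd G o (c, t1, 0)) (cd G o (c', tp, 0)) =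
            -SignType.sign ((t1 : ℤ) - t0) := by
        intro c c' hc hc' hlt
        have v0 := hval c t0 hc ht0
        have v1 := hval c t1 hc ht1
        have v2 := hval c' tp hc' a2
        rw [sg_left hP.hB (by rw [cd_fst]; exact col_pos v0) (by rw [cd_fst, cd_fst])
          (by rw [cd_fst, cd_fst]; exact hlt) (cd_off hP hw v0) (cd_off hP hw v1)
          (cd_off hP hw v2) (cd_ht hP v0) (cd_ht hP v1) (cd_ht hP v2)
          (by rw [ht' _ _ hc, ht' _ _ hc]; exact ht), ht' _ _ hc, ht' _ _ hc]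
      have right : ∀ c c', (c = 1 ∨ c = 3 ∨ c = 5 ∨ c = 7) → (c' = 1 ∨ c' = 3 ∨ c' = 5 ∨ c' = 7) →
          c < c' → sg B (cd G o (c, t0, 0)) (cd G o (c, t1, 0)) (cd G o (c', tp, 0)) =
            -SignType.sign ((t0 : ℤ) - t1) := by
        intro c c' hc hc' hlt
        have v0 := hval c t0 hc ht0
        have v1 := hval c t1 hc ht1
        have v2 := hval c' tp hc' a2
        rw [sg_right hP.hB (by rw [cd_fst]; exact col_pos v0) (by rw [cd_fst, cd_fst])
          (by rw [cd_fst, cd_fst]; exact hlt) (cd_off hP hw v0) (cd_off hP hw v1)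
          (cd_off hP hw v2) (cd_ht hP v0) (cd_ht hP v1) (cd_ht hP v2)
          (by rw [ht' _ _ hc, ht' _ _ hc]; exact ht), ht' _ _ hc, ht' _ _ hc]
      have Q1 := P1 cp a1
      have Q2 := P1 cq b1
      have hti : (t0 : ℤ) ≠ t1 := by exact_mod_cast ht
      rcases lt_or_gt_of_ne hc with h1 | h1
      · rw [same cp a1, right cp cq a1 b1 h1] at Q1
        rw [same cq b1, left cq cp b1 a1 h1] at Q2
        exact sign_flip hti (Q1.symm.trans Q2.symm)
      · rw [same cp a1, left cp cq a1 b1 h1] at Q1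
        rw [same cq b1, right cq cp b1 a1 h1] at Q2
        exact sign_flip hti.symm (Q1.symm.trans Q2.symm)
  · have hp' : p.1 = 2 ∨ p.1 = 4 ∨ p.1 = 6 := by
      rcases vp with ⟨h, _⟩ | ⟨h, _⟩ <;> omega
    have hnl' : ¬ Line p q := by
      unfold Line
      unfold Rel Mid at e4
      omega
    exact flip hP hw vp vq (hval 1 t0 (by omega) ht0) (hval 7 t0 (by omega) ht0) e1 hnl'
      (by simp only; omega) (by simp only; omega) P2

end

end Pool.Agent.V11225.AV
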