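import Pool.Agent.V11225.AV.Comp2

/-!
# The configuration of a clique avoids the obstacles: the last pattern
-/

namespace Pool.Agent.V11225.AV

theorem rel_third {i1 j1 i2 j2 i3 j3 i4 j4 : ℕ} (h : Rel i1 j1 i2 j2 i3 j3)
    (h' : Rel i1 j1 i2 j2 i4 j4) : i3 = i4 ∧ j3 = j4 := by
  unfold Rel Mid at h h'
  rcases h with ⟨_, ⟨_, _, _, _⟩ | ⟨_, _, _, _⟩⟩ |
    ⟨_, ⟨_, _, _, _⟩ | ⟨_, _, _, _⟩⟩ |
    ⟨_, ⟨_, _, _, _⟩ | ⟨_, _, _, _⟩⟩ <;>
  rcases h' with ⟨_, ⟨_, _, _, _⟩ | ⟨_, _, _, _⟩⟩ |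
    ⟨_, ⟨_, _, _, _⟩ | ⟨_, _, _, _⟩⟩ |
    ⟨_, ⟨_, _, _, _⟩ | ⟨_, _, _, _⟩⟩ <;> omega

/-- related labels are collinear -/
theorem ver_col {B G : ℕ} {o : ℕ → ℕ → ℕ} {x y z : Idx} (h : Ver x y z) :
    sg B (cd G o x) (cd G o y) (cd G o z) = 0 := by
  rw [sg_eq_zero]
  obtain ⟨c0, i0, j0⟩ := x
  obtain ⟨c1, i1, j1⟩ := y
  obtain ⟨c2, i2, j2⟩ := z
  obtain ⟨e1, e2, e3, e4⟩ := h
  simp only at e1 e2 e3 e4
  subst e1 e2
  unfold cd
  simp only
  rw [if_neg (by omega), if_neg (by omega), if_neg (by omega), DD_col]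
  unfold Rel Mid at e4
  unfold D hg
  rcases e4 with ⟨_, ⟨rfl, rfl, rfl, rfl⟩ | ⟨rfl, rfl, rfl, rfl⟩⟩ |
    ⟨_, ⟨rfl, rfl, rfl, rfl⟩ | ⟨rfl, rfl, rfl, rfl⟩⟩ |
    ⟨_, ⟨rfl, rfl, rfl, rfl⟩ | ⟨rfl, rfl, rfl, rfl⟩⟩ <;> push_cast <;> ring

/-- labels on the same line are collinear -/
theorem line_col {B G : ℕ} {o : ℕ → ℕ → ℕ} {x y z : Idx} (h1 : Line x y) (h2 : Line y z) :
    sg B (cd G o x) (cd G o y) (cd G o z) = 0 := by
  rw [sg_eq_zero]
  have e : ∀ {x y : Idx}, Line x y → (cd G o x).2.2 = (cd G o y).2.2 := by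
    intro x y h
    unfold cd
    obtain ⟨h1, h2, h3⟩ := h
    rw [h1, h2, h3]
    split_ifs <;> rfl
  unfold DD D
  rw [e h1, e h2]
  ring

/-- the first column is on a horizontal line -/
theorem caseH {M k : ℕ} (P : Fin 3 → Fin 3 → Idx) (hv : ∀ r s, Val M k (P r s))
    (hinj : ∀ r s r' s', P r s = P r' s' → r = r' ∧ s = s')
    (hrow : ∀ r, Col (P r 0) (P r 1) (P r 2)) (h0 : Line (P 0 0) (P 1 0) ∧ Line (P 1 0) (P 2 0))
    (h1 : Col (P 0 1) (P 1 1) (P 2 1)) : Line (P 0 2) (P 1 2) ∧ Line (P 1 2) (P 2 2) := by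
  have sy : ∀ {x y : Idx}, Line x y → Line y x := fun h => ⟨h.1.symm, h.2.1.symm, h.2.2.symm⟩
  have tr : ∀ {x y z : Idx}, Line x y → Line y z → Line x z := fun h h' =>
    ⟨h.1.trans h'.1, h.2.1.trans h'.2.1, h.2.2.trans h'.2.2⟩
  have hl : ∀ r, Line (P 0 0) (P r 0) := by
    intro r
    fin_cases r
    · exact ⟨rfl, rfl, rfl⟩
    · exact h0.1
    · exact tr h0.1 h0.2
  have hV : ∀ r, Ver (P r 0) (P r 1) (P r 2) := by
    intro r
    rcases hrow r with ⟨a, b⟩ | h
    · exfalso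
      refine no5 (M := M) (k := k)
        (fun a : Fin 5 => if a = 0 then P 0 0 else if a = 1 then P 1 0 else
          if a = 2 then P 2 0 else if a = 3 then P r 1 else P r 2) ?_ ?_ ?_
      · intro a b hab
        fin_cases a <;> fin_cases b <;> first
          | rfl
          | (exfalso
             simp at hab
             have := hinj _ _ _ _ hab
             revert this
             simp)
      · intro a
        fin_cases a <;> simp [hv]
      · have hl' : ∀ a : Fin 5, Line (P 0 0) ((fun a : Fin 5 => if a = 0 then P 0 0 else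
            if a = 1 then P 1 0 else if a = 2 then P 2 0 else if a = 3 then P r 1 else P r 2) a) := by
          intro a
          fin_cases a
          · exact ⟨rfl, rfl, rfl⟩
          · exact hl 1
          · exact hl 2
          · exact tr (hl r) (by assumption)
          · exact tr (hl r) (tr (by assumption) (by assumption))
        intro a b
        exact tr (sy (hl' a)) (hl' b)
    · exact h
  have hc1 : Line (P 0 1) (P 1 1) ∧ Line (P 1 1) (P 2 1) := by
    rcases h1 with h | h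
    · exact h
    · exfalso
      have e1 := (hV 0).1
      have e2 := (hV 1).1
      have e3 := h.1
      have e4 : P 0 0 = P 1 0 := ext_idx h0.1 (by omega)
      have := (hinj _ _ _ _ e4).1
      revert this; decide
  have hV0 := hV 0
  have hV1 := hV 1
  have hV2 := hV 2
  generalize P 0 0 = p00 at *
  generalize P 1 0 = p10 at *
  generalize P 2 0 = p20 at *
  generalize P 0 1 = p01 at *
  generalize P 1 1 = p11 at *
  generalize P 2 1 = p21 at *
  generalize P 0 2 = p02 at *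
  generalize P 1 2 = p12 at *
  generalize P 2 2 = p22 at *
  clear hv hinj hrow hl hV sy tr
  have key : ∀ {a b c a' b' c' : Idx}, Ver a b c → Ver a' b' c' → Line a a' → Line b b' →
      Line c c' := by
    intro a b c a' b' c' u1 u2 u3 u4
    obtain ⟨v1, v2, v3, v4⟩ := u1
    obtain ⟨w1, w2, w3, w4⟩ := u2
    obtain ⟨x1, x2, x3⟩ := u3
    obtain ⟨y1, y2, y3⟩ := u4
    rw [← x2, ← x3, ← y2, ← y3] at w4
    have := rel_third v4 w4
    exact ⟨by omega, this.1, this.2⟩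
  exact ⟨key hV0 hV1 h0.1 hc1.1, key hV1 hV2 h0.2 hc1.2⟩

theorem mid_swap {i j a b c d : ℕ} (h : Mid i j a b c d) : Mid i j c d a b := by
  obtain ⟨h1, ⟨h2, h3, h4, h5⟩ | ⟨h2, h3, h4, h5⟩⟩ := h
  · exact ⟨h1, Or.inr ⟨h4, h5, h2, h3⟩⟩
  · exact ⟨h1, Or.inl ⟨h4, h5, h2, h3⟩⟩

theorem rel_swap {i1 j1 i2 j2 i3 j3 : ℕ} (h : Rel i1 j1 i2 j2 i3 j3) : Rel i2 j2 i1 j1 i3 j3 := by
  rcases h with h | h | h
  · exact Or.inr (Or.inl h)
  · exact Or.inl h
  · exact Or.inr (Or.inr (mid_swap h))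

theorem ver_swap {x y z : Idx} (h : Ver x y z) : Ver y x z :=
  ⟨h.1.symm, h.1.trans h.2.1, by have := h.1; have := h.2.2.1; omega, rel_swap h.2.2.2⟩

theorem col_swap {x y z : Idx} (h : Col x y z) : Col y x z := by
  rcases h with h | h
  · left
    obtain ⟨⟨h1, h2, h3⟩, ⟨h4, h5, h6⟩⟩ := h
    exact ⟨⟨h1.symm, h2.symm, h3.symm⟩, ⟨h1.trans h4, h2.trans h5, h3.trans h6⟩⟩
  · exact Or.inr (ver_swap h)

theorem mid_share {i j a b c d a' b' c' d' : ℕ} (h : Mid i j a b c d) (h' : Rel i j a' b' c' d') :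
    (a' = a ∧ b' = b) ∨ (a' = c ∧ b' = d) := by
  unfold Rel Mid at *
  obtain ⟨h1, ⟨h2, h3, h4, h5⟩ | ⟨h2, h3, h4, h5⟩⟩ := h <;>
  rcases h' with ⟨_, ⟨_, _, _, _⟩ | ⟨_, _, _, _⟩⟩ |
    ⟨_, ⟨_, _, _, _⟩ | ⟨_, _, _, _⟩⟩ |
    ⟨_, ⟨_, _, _, _⟩ | ⟨_, _, _, _⟩⟩ <;> omega

section

variable {B G M w H k : ℕ} {o : ℕ → ℕ → ℕ} (hP : Good B G M w H k)
  (hw : ∀ c, (c = 2 ∨ c = 4 ∨ c = 6) → ∀ i < k, ∀ j < k, o c i + o c j ≤ w)
  (hS : ∀ c, (c = 2 ∨ c = 4 ∨ c = 6) → ∀ i j i' j', i ≤ j → j < k → i' ≤ j' → j' < k →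
    o c i + o c j = o c i' + o c j' → i = i' ∧ j = j')

include hP hw hS

theorem noC (g : IC → Idx) (hg : Function.Injective g) (hv : ∀ a, Val M k (g a))
    (h : BadC fun a b c => sg B (cd G o (g a)) (cd G o (g b)) (cd G o (g c))) : False := by
  obtain ⟨hR, h0, h1, h2⟩ := h
  have n : ∀ a b, a ≠ b → g a ≠ g b := fun a b hab h => hab (hg h)
  have hrow : ∀ r, Col (g (r, 0)) (g (r, 1)) (g (r, 2)) := fun r =>
    col_of hP hw hS (hv _) (hv _) (hv _) (n _ _ (by simp)) (n _ _ (by simp))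
      (n _ _ (by simp)) (hR r)
  have c0 : Col (g (0, 0)) (g (1, 0)) (g (2, 0)) :=
    col_of hP hw hS (hv _) (hv _) (hv _) (n _ _ (by simp)) (n _ _ (by simp))
      (n _ _ (by simp)) h0
  have c1 : Col (g (0, 1)) (g (1, 1)) (g (2, 1)) :=
    col_of hP hw hS (hv _) (hv _) (hv _) (n _ _ (by simp)) (n _ _ (by simp))
      (n _ _ (by simp)) h1
  rcases c0 with a0 | a0
  · have := caseH (M := M) (k := k) (fun r s => g (r, s)) (fun r s => hv _)
      (fun r s r' s' h => by simpa using hg h) hrow a0 c1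
    exact h2 (line_col this.1 this.2)
  rcases c1 with a1 | a1
  · have sw : ∀ s : Fin 3, (if s = 0 then (1 : Fin 3) else if s = 1 then 0 else s) =
        Equiv.swap (0 : Fin 3) 1 s := by decide
    have := caseH (M := M) (k := k) (fun r s => g (r, Equiv.swap (0 : Fin 3) 1 s))
      (fun r s => hv _)
      (fun r s r' s' h => by
        have := hg h
        rw [Prod.mk.injEq] at this
        exact ⟨this.1, (Equiv.swap (0 : Fin 3) 1).injective this.2⟩)
      (fun r => col_swap (hrow r)) a1 (Or.inr a0)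
    exact h2 (line_col this.1 this.2)
  -- both columns are vertical
  by_cases e : (g (0, 0)).1 = (g (0, 1)).1
  · -- all rows are vertical
    have hV : ∀ r, Ver (g (r, 0)) (g (r, 1)) (g (r, 2)) := by
      intro r
      rcases hrow r with hh | hh
      · exfalso
        have e1 : (g (r, 0)).1 = (g (0, 0)).1 := by
          fin_cases r
          · rfl
          · exact a0.1.symm
          · exact (a0.1.trans a0.2.1).symm
        have e2 : (g (r, 1)).1 = (g (0, 1)).1 := by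
          fin_cases r
          · rfl
          · exact a1.1.symm
          · exact (a1.1.trans a1.2.1).symm
        exact n (r, 0) (r, 1) (by simp) (ext_idx hh.1 (by omega))
      · exact hh
    have hshare : ∀ r r1 r2 : Fin 3, r1 ≠ r → r2 ≠ r →
        (g (r, 0)).1 = (g (r1, 0)).1 → (g (r, 0)).1 = (g (r2, 0)).1 →
        Mid (g (r, 0)).2.1 (g (r, 0)).2.2 (g (r1, 0)).2.1 (g (r1, 0)).2.2
          (g (r2, 0)).2.1 (g (r2, 0)).2.2 → False := by
      intro r r1 r2 _ _ e1 e2 hm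
      have hv' := hV r
      rcases mid_share hm hv'.2.2.2 with h | h
      · exact n (r, 1) (r1, 0) (by simp) (Prod.ext (hv'.1.symm.trans e1) (Prod.ext h.1 h.2))
      · exact n (r, 1) (r2, 0) (by simp) (Prod.ext (hv'.1.symm.trans e2) (Prod.ext h.1 h.2))
    obtain ⟨f1, f2, _, f4⟩ := a0
    rcases f4 with f | f | f
    · exact hshare 0 1 2 (by decide) (by decide) f1 (f1.trans f2) f
    · exact hshare 1 0 2 (by decide) (by decide) f1.symm f2 f
    · exact hshare 2 0 1 (by decide) (by decide) (f1.trans f2).symm f2.symm f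
  · -- all rows are horizontal
    have e1 : ∀ r, (g (r, 0)).1 = (g (0, 0)).1 := by
      intro r
      fin_cases r
      · rfl
      · exact a0.1.symm
      · exact (a0.1.trans a0.2.1).symm
    have e2 : ∀ r, (g (r, 1)).1 = (g (0, 1)).1 := by
      intro r
      fin_cases r
      · rfl
      · exact a1.1.symm
      · exact (a1.1.trans a1.2.1).symm
    have hH : ∀ r, Line (g (r, 0)) (g (r, 1)) ∧ Line (g (r, 1)) (g (r, 2)) := by
      intro r
      rcases hrow r with hh | hh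
      · exact hh
      · exfalso
        have := hh.1
        rw [e1, e2] at this
        exact e this
    have par := a0.2.2.1
    have hc2 : ∀ r, (g (r, 2)).1 ≠ (g (r, 0)).1 ∧ (g (r, 2)).1 ≠ (g (r, 1)).1 := by
      intro r
      obtain ⟨⟨x1, x2, x3⟩, ⟨y1, y2, y3⟩⟩ := hH r
      refine ⟨fun hh => n (r, 2) (r, 0) (by simp) (ext_idx ⟨?_, ?_, ?_⟩ hh),
        fun hh => n (r, 2) (r, 1) (by simp) (ext_idx ⟨?_, ?_, ?_⟩ hh)⟩ <;> omega
    have rng : ∀ x : Idx, Val M k x → x.1 % 2 = 0 → (x.1 = 2 ∨ x.1 = 4 ∨ x.1 = 6) := by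
      intro x hx hp
      rcases hx with ⟨h, _⟩ | ⟨h, _⟩
      · omega
      · exact h
    have same : ∀ r, (g (r, 2)).1 = (g (0, 2)).1 := by
      intro r
      have q1 := e1 r
      have q2 := e2 r
      have q3 := hc2 r
      have q4 := hc2 0
      have q5 := hH r
      have q6 := hH 0
      have q7 := rng (g (r, 0)) (hv _) (by omega)
      have q8 := rng (g (r, 1)) (hv _) (by have := q5.1.1; omega)
      have q9 := rng (g (r, 2)) (hv _) (by have := q5.1.1; have := q5.2.1; omega)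
      have q10 := rng (g (0, 2)) (hv _) (by have := q6.1.1; have := q6.2.1; omega)
      omega
    refine h2 (ver_col ⟨(same 1).symm, (same 1).trans (same 2).symm, ?_, ?_⟩)
    · have := (hH 0).1.1
      have := (hH 0).2.1
      omega
    · have l : ∀ r, (g (r, 2)).2.1 = (g (r, 0)).2.1 ∧ (g (r, 2)).2.2 = (g (r, 0)).2.2 := by
        intro r
        obtain ⟨⟨x1, x2, x3⟩, ⟨y1, y2, y3⟩⟩ := hH r
        omega
      rw [(l 0).1, (l 0).2, (l 1).1, (l 1).2, (l 2).1, (l 2).2]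
      exact a0.2.2.2

/-- the configuration of a clique avoids the obstacles -/
theorem noBad_star : NoBad (sg B) (cd G o '' {x | Val M k x}) := by
  rw [noBad_image (o := fun x y z => sg B (cd G o x) (cd G o y) (cd G o z)) (cd_inj hP)
    (fun _ _ _ _ _ _ => rfl)]
  exact ⟨fun f hf hv h => noA hP hw hS f hf hv h, fun f hf hv h => noB hP hw hS f hf hv h,
    fun f hf hv h => noC hP hw hS f hf hv h⟩

end

end Pool.Agent.V11225.AV
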