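import Pool.Agent.H633R2.Fpt
import Mathlib.Data.Sign.Basic

/-!
# Largest subconfigurations which avoid a fixed finite set of obstacles: definitions
-/

namespace Pool.Agent.V11225.AV

open Pool.Agent.NPC Pool.Agent.H633R2

/-- The orientation of three points of the plane. -/
noncomputable def ori (p q r : ℝ × ℝ) : SignType :=
  -SignType.sign (p.1 * q.2 - p.1 * r.2 + q.1 * r.2 - q.1 * p.2 + r.1 * p.2 - r.1 * q.2)

/-- The configuration `C` has an instance in the configuration `S`. -/
def HasInst (C S : Finset (ℝ × ℝ)) : Prop :=
  ∃ φ : ℝ × ℝ → ℝ × ℝ, Set.InjOn φ C ∧ (∀ a ∈ C, φ a ∈ S) ∧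
    ∀ a ∈ C, ∀ b ∈ C, ∀ c ∈ C, ori (φ a) (φ b) (φ c) = ori a b c

/-- The configuration `S` avoids all obstacles of the list. -/
def Avoids (𝒞 : List (Finset (ℝ × ℝ))) (S : Finset (ℝ × ℝ)) : Prop :=
  ∀ C ∈ 𝒞, ¬ HasInst C S

open Classical in
/-- The largest number of points of a subset of `S` which avoids the obstacles. -/
noncomputable def AVOIDS (𝒞 : List (Finset (ℝ × ℝ))) (S : Finset (ℝ × ℝ)) : ℕ :=
  (S.powerset.filter fun S' => Avoids 𝒞 S').sup Finset.card

/-- an orientation, coded by a number -/
noncomputable def code (s : SignType) : ℕ := if s = 0 then 0 else if s = 1 then 1 else 2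

/-- The table of the orientations of all triples of points of a list. -/
noncomputable def oriTable (S : List (ℝ × ℝ)) : List (List (List ℕ)) :=
  S.map fun p => S.map fun q => S.map fun r => code (ori p q r)

/-- `AVOIDS` is fixed-parameter tractable with respect to its natural parameter: some Turing
machine computes, from the table of the orientations of the triples of any list of `n` distinct
points, the number `AVOIDS` within `h AVOIDS * p n` steps, for a computable function `h` and a
polynomial `p`. -/
def FptFromOrientations (𝒞 : List (Finset (ℝ × ℝ))) : Prop :=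
  ∃ (M : Turing.TM2ComputableAux Bool Bool) (h : ℕ → ℕ) (p : Polynomial ℕ), Computable h ∧
    ∀ S : List (ℝ × ℝ), S.Nodup →
      TmRuns M (bits (oriTable S)) (bits (AVOIDS 𝒞 (S.toFinset)))
        (h (AVOIDS 𝒞 (S.toFinset)) * p.eval S.length)

/-- the point of the plane with natural coordinates -/
def toR (p : ℕ × ℕ) : ℝ × ℝ := (p.1, p.2)

/-- the configuration of the points in a list of pairs of natural numbers -/
noncomputable def conf (L : List (ℕ × ℕ)) : Finset (ℝ × ℝ) := (L.map toR).toFinset

end Pool.Agent.V11225.AV
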