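import Pool.Agent.V11225.AV.Time
import Pool.Agent.V11225.MV.Final

/-!
# The final theorems
-/

namespace Pool.Agent.V11225.AV

open Finset Pool.Agent.NPC Pool.Agent.H633R2 Pool.Agent.V11225.MV

def cG (x : Inp) : ℕ := 2 ^ eG x
def cB (x : Inp) : ℕ := 2 ^ eB x
def cH (x : Inp) : ℕ := 2 * cG x ^ (gn x + 1)

theorem gk_le (x : Inp) : gk x ≤ gn x := min_le_right _ _

theorem gw_ge (x : Inp) : 128 ≤ gw x ∧ gm x * gm x ≤ gw x ∧
    4 * (gn x * gn x * gn x) + 2 * (gn x * gn x) + 2 * gn x ≤ gw x := by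
  have hk := gk_le x
  unfold gw gm
  generalize gn x = n at *
  generalize gk x = k at *
  have e0 : (n + 2) * (n + 2) = n * n + 4 * n + 4 := by ring
  have e1 : 4 ≤ (n + 2) * (n + 2) := by rw [e0]; omega
  have e2 : k * k + 2 ≤ (n + 2) * (n + 2) := by
    have := Nat.mul_le_mul hk hk
    rw [e0]
    omega
  refine ⟨?_, ?_, ?_⟩
  · have := Nat.mul_le_mul e1 e1
    omega
  · have := Nat.mul_le_mul e2 e2
    omega
  · nlinarith [Nat.zero_le (n * n * (n * n)), Nat.zero_le (n * n * n), Nat.zero_le (n * n)]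

theorem ga_le (x : Inp) {i j : ℕ} (hi : i < gn x) (hj : j < gn x) : ga x i + ga x j ≤ gw x := by
  have h := (gw_ge x).2.2
  have h1 : ∀ u, u < gn x → ga x u ≤ gn x * (2 * (gn x * gn x) + 1) + gn x * gn x := by
    intro u hu
    unfold ga
    exact add_le_add (Nat.mul_le_mul_right _ hu.le) (Nat.mul_le_mul hu.le hu.le)
  have h2 := h1 i hi
  have h3 := h1 j hj
  have e : gn x * (2 * (gn x * gn x) + 1) = 2 * (gn x * gn x * gn x) + gn x := by ring
  rw [e] at h2 h3
  omega

theorem good (x : Inp) : Good (cB x) (cG x) (gm x) (gw x) (cH x) (gk x) := by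
  obtain ⟨hw1, hw2, hw3⟩ := gw_ge x
  have hm : 1 ≤ gm x := by unfold gm; omega
  have hmw : gm x ≤ gw x := by nlinarith
  have hG8 : 8 * gw x < cG x := by
    unfold cG eG
    exact Nat.lt_two_pow_self
  have hGpos : 1 ≤ cG x := by omega
  have hGH : cG x ≤ cH x := by
    unfold cH
    have : cG x ≤ cG x ^ (gn x + 1) := Nat.le_self_pow (by omega) _
    omega
  refine ⟨?_, by omega, by omega, hw2, ?_, by omega⟩
  · have e1 : gw x + 1 ≤ 2 ^ gw x := Nat.lt_two_pow_self
    have e2 : cB x = 2 ^ (gw x) * 4 * cH x := by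
      unfold cB cH cG eB eG
      rw [← pow_mul, pow_add, pow_add]
      ring
    have e3 : 3 * (1 + gw x) < 2 ^ gw x * 4 := by omega
    rw [e2]
    exact Nat.mul_lt_mul_of_pos_right e3 (by omega)
  · intro i hi j hj
    have hk := gk_le x
    unfold hg cH
    have e1 : cG x ^ (i + 1) ≤ cG x ^ (gn x + 1) := Nat.pow_le_pow_right hGpos (by omega)
    have e2 : cG x ^ (j + 1) ≤ cG x ^ (gn x + 1) := Nat.pow_le_pow_right hGpos (by omega)
    omega

theorem pG_eq (x : Inp) {i : ℕ} (hi : i < gk x) : pG x i = cG x ^ (i + 1) := by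
  have := gk_le x
  unfold pG cG
  rw [min_eq_left (by omega), pow_mul]

theorem pB_eq (x : Inp) {c : ℕ} (hc : c ≤ 7) : pB x c = cB x ^ c := by
  unfold pB cB
  rw [min_eq_left hc, pow_mul]

theorem mem_cl (x : Inp) (q : Cd) : q ∈ cl x ↔
    InT (cG x) (gm x) (gk x) (gn x) (ga x) (fun u v => gAdj x u v = true) q := by
  unfold cl InT
  rw [List.mem_append, List.mem_append]
  refine or_congr ?_ (or_congr ?_ ?_)
  · simp only [List.mem_flatMap, List.mem_range, List.mem_map, List.mem_cons, List.not_mem_nil,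
      or_false]
    constructor
    · rintro ⟨t, ht, c, hc, rfl⟩
      exact ⟨t, ht, hc, rfl⟩
    · rintro ⟨t, ht, hc, h⟩
      exact ⟨t, ht, q.1, hc, Prod.ext rfl h.symm⟩
  · simp only [List.mem_flatMap, List.mem_range, List.mem_cons, List.not_mem_nil,
      or_false]
    constructor
    · rintro ⟨i, hi, j, hj, c, hc, h⟩
      split_ifs at h with hij
      · rw [List.mem_singleton] at h
        subst h
        refine ⟨i, j, hij, hj, hc, ?_⟩
        unfold hg
        rw [← pG_eq x hi, ← pG_eq x hj]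
      · exact absurd h (List.not_mem_nil)
    · rintro ⟨i, j, hij, hj, hc, h⟩
      refine ⟨i, by omega, j, hj, q.1, hc, ?_⟩
      rw [if_pos hij, List.mem_singleton]
      refine Prod.ext rfl ?_
      rw [h]
      unfold hg
      rw [← pG_eq x (by omega : i < gk x), ← pG_eq x hj]
  · simp only [List.mem_flatMap, List.mem_range]
    constructor
    · rintro ⟨i, hi, j, hj, u, hu, v, hv, h⟩
      split_ifs at h with hc
      · rw [List.mem_singleton] at h
        subst h
        refine ⟨i, j, u, v, hc.1, hj, hu, hv, hc.2, rfl, ?_⟩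
        unfold hg
        rw [← pG_eq x hi, ← pG_eq x hj]
      · exact absurd h (List.not_mem_nil)
    · rintro ⟨i, j, u, v, hij, hj, hu, hv, hc, h4, h⟩
      refine ⟨i, by omega, j, hj, u, hu, v, hv, ?_⟩
      rw [if_pos ⟨hij, hc⟩, List.mem_singleton]
      refine Prod.ext h4 ?_
      rw [h]
      unfold hg
      rw [← pG_eq x (by omega : i < gk x), ← pG_eq x hj]

theorem conf_pts (x : Inp) : conf (pts x) =
    (cl x).toFinset.image fun q => toR (pt (cB x) q) := by
  ext y
  unfold conf pts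
  rw [List.mem_toFinset, List.mem_map, mem_image]
  simp only [mem_dd, List.mem_map, List.mem_toFinset]
  have hq7 : ∀ q ∈ cl x, pB x q.1 = cB x ^ q.1 := by
    intro q hq
    rw [mem_cl] at hq
    refine pB_eq x ?_
    rcases hq with ⟨_, _, h, _⟩ | ⟨_, _, _, _, h, _⟩ | ⟨_, _, _, _, _, _, _, _, _, h, _⟩ <;> omega
  constructor
  · rintro ⟨p, ⟨q, hq, rfl⟩, rfl⟩
    refine ⟨q, hq, ?_⟩
    unfold pt
    rw [hq7 q hq]
  · rintro ⟨q, hq, rfl⟩
    refine ⟨_, ⟨q, hq, rfl⟩, ?_⟩
    unfold pt
    rw [hq7 q hq]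

theorem sidon (n u v u' v' : ℕ) (hu : u < n) (hv : v < n) (hu' : u' < n) (hv' : v' < n)
    (h : u * (2 * (n * n) + 1) + u * u + (v * (2 * (n * n) + 1) + v * v) =
      u' * (2 * (n * n) + 1) + u' * u' + (v' * (2 * (n * n) + 1) + v' * v')) :
    (u = u' ∧ v = v') ∨ (u = v' ∧ v = u') := by
  have sq : ∀ t, t < n → t * t ≤ n * n := fun t ht => Nat.mul_le_mul ht.le ht.le
  have s1 := sq u hu
  have s2 := sq v hv
  have s3 := sq u' hu'
  have s4 := sq v' hv'
  have hsum : u + v = u' + v' := by
    have e1 : (u + v) * (2 * (n * n) + 1) + (u * u + v * v) =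
        (u' + v') * (2 * (n * n) + 1) + (u' * u' + v' * v') := by
      rw [add_mul, add_mul]
      omega
    have hpos : 0 < 2 * (n * n) + 1 := by omega
    have d1 : ((u + v) * (2 * (n * n) + 1) + (u * u + v * v)) / (2 * (n * n) + 1) =
        ((u' + v') * (2 * (n * n) + 1) + (u' * u' + v' * v')) / (2 * (n * n) + 1) := by rw [e1]
    rw [Nat.mul_comm (u + v), Nat.mul_comm (u' + v'), Nat.mul_add_div hpos,
      Nat.mul_add_div hpos, Nat.div_eq_of_lt (by omega), Nat.div_eq_of_lt (by omega)] at d1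
    omega
  have hsq : u * u + v * v = u' * u' + v' * v' := by
    have e1 : (u + v) * (2 * (n * n) + 1) = (u' + v') * (2 * (n * n) + 1) := by rw [hsum]
    rw [add_mul, add_mul] at e1
    omega
  have hz : ((u : ℤ) - u') * ((u : ℤ) - v') = 0 := by
    have h1 : (u : ℤ) + v = u' + v' := by exact_mod_cast hsum
    have h2 : (u : ℤ) * u + v * v = u' * u' + v' * v' := by exact_mod_cast hsq
    have h3 : (v : ℤ) = u' + v' - u := by linarith
    rw [h3] at h2
    linarith
  rcases mul_eq_zero.1 hz with h1 | h1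
  · left; omega
  · right; omega

theorem card_prs_le (k : ℕ) : (prs k).card ≤ k * k := by
  unfold prs
  refine (card_filter_le _ _).trans ?_
  rw [card_product, card_range]

theorem red_spec {𝒞 : List (Finset (ℝ × ℝ))} (h𝒞 : IsObst 𝒞) (x : Inp) :
    (HasClique x ↔ (red x).2 ≤ AVOIDS 𝒞 (conf (red x).1)) ∧
      AVOIDS 𝒞 (conf (red x).1) ≤ (red x).2 ∧ (red x).2 ≤ 7 * (x.2 * x.2) + 8 := by
  unfold red
  split_ifs with h
  · simp only
    rw [conf_pts, clq x h]
    have hm := main (good x) (gk_le x) (fun i hi j hj => ga_le x hi hj)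
      (T := (cl x).toFinset) (adj := fun u v => gAdj x u v = true)
      (fun q => by rw [List.mem_toFinset]; exact mem_cl x q) h𝒞 (by
        have := card_prs_le (gk x)
        unfold gm
        omega) (fun u v huv => by rw [gAdj_comm]; exact huv)
      (fun u hu => by unfold gAdj at hu; simp at hu)
      (fun u hu v hv u' hu' v' hv' he => sidon (gn x) u v u' v' hu hv hu' hv' he)
    have ht : tg x = 4 * gm x + 3 * (prs (gk x)).card := by
      unfold tg
      rw [length_pl]
    rw [ht]
    refine ⟨hm.1.symm, hm.2, ?_⟩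
    have h1 := card_prs_le (gk x)
    have h2 : gk x = x.2 := min_eq_left h
    rw [h2] at h1
    unfold gm
    rw [h2]
    omega
  · simp only
    have he : conf [] = ∅ := by simp [conf]
    have h0' : AVOIDS 𝒞 (conf []) ≤ 0 := by
      classical
      rw [he]
      unfold AVOIDS
      refine Finset.sup_le fun S hS => ?_
      rw [mem_filter, mem_powerset, subset_empty] at hS
      rw [hS.1, card_empty]
    have h0 := Nat.le_zero.1 h0'
    rw [h0]
    refine ⟨⟨?_, fun h => by omega⟩, by omega, by omega⟩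
    rintro ⟨S, hS⟩
    exfalso
    have h2 := hS.card_eq
    have h3 := S.card_le_univ
    rw [Fintype.card_fin] at h3
    omega

/-- The decision problem. -/
def Dec (𝒞 : List (Finset (ℝ × ℝ))) (I : List (ℕ × ℕ) × ℕ) : Prop :=
  I.2 ≤ AVOIDS 𝒞 (conf I.1)

theorem cmp_bound : Computable (fun k : ℕ => 7 * (k * k) + 8) :=
  add_computable (mul_computable (Computable.const 7)
    (mul_computable Computable.id Computable.id)) (Computable.const 8)

theorem w1Hard {𝒞 : List (Finset (ℝ × ℝ))} (h𝒞 : IsObst 𝒞) :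
    W1Hard (fun I : List (ℕ × ℕ) × ℕ => I.2) (Dec 𝒞) :=
  W1Hard.of_clique ⟨red, fun k => 7 * (k * k) + 8, FptTime.of_poly p_red, cmp_bound,
    fun x => ⟨(red_spec h𝒞 x).1, (red_spec h𝒞 x).2.2⟩⟩

/-! ### Computing `AVOIDS` from the orientations -/

/-- the orientation table of points with natural coordinates -/
def tab (L : List (ℕ × ℕ)) : List (List (List ℕ)) :=
  L.map fun p => L.map fun q => L.map fun r =>
    if p.1 * q.2 + q.1 * r.2 + r.1 * p.2 = p.1 * r.2 + q.1 * p.2 + r.1 * q.2 then 0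
    else if p.1 * q.2 + q.1 * r.2 + r.1 * p.2 < p.1 * r.2 + q.1 * p.2 + r.1 * q.2 then 1 else 2

theorem p_tab {α : Type} [TEnc α] {f : α → List (ℕ × ℕ)} (hf : Poly f) :
    Poly (fun a => tab (f a)) := by
  unfold tab
  fun_prop

theorem tab_eq (L : List (ℕ × ℕ)) : oriTable (L.map toR) = tab L := by
  unfold oriTable tab
  simp only [List.map_map]
  refine List.map_congr_left fun p _ => List.map_congr_left fun q _ =>
    List.map_congr_left fun r _ => ?_
  simp only [Function.comp]
  have hD : ori (toR p) (toR q) (toR r) = -SignType.sign (((p.1 * q.2 + q.1 * r.2 + r.1 * p.2 : ℕ) :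
      ℤ) - ((p.1 * r.2 + q.1 * p.2 + r.1 * q.2 : ℕ) : ℤ)) := by
    unfold ori
    rw [← sign_cast]
    congr 2
    unfold toR
    push_cast
    ring
  rw [hD]
  generalize p.1 * q.2 + q.1 * r.2 + r.1 * p.2 = s
  generalize p.1 * r.2 + q.1 * p.2 + r.1 * q.2 = t
  rcases lt_trichotomy s t with h | h | h
  · rw [sign_neg (by omega), if_neg (by omega), if_pos h]
    rfl
  · subst h
    rw [sub_self, sign_zero, if_pos rfl]
    rfl
  · rw [sign_pos (by omega), if_neg (by omega), if_neg (by omega)]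
    rfl

theorem toR_inj : Function.Injective toR := by
  intro p q h
  unfold toR at h
  simp only [Prod.mk.injEq, Nat.cast_inj] at h
  exact Prod.ext h.1 h.2

theorem nodup_red (x : Inp) : ((red x).1.map toR).Nodup := by
  refine List.Nodup.map toR_inj ?_
  unfold red
  split_ifs
  · exact nodup_dd _
  · exact List.nodup_nil

theorem length_le_tab (L : List (ℕ × ℕ)) : L.length ≤ (bits (tab L)).length := by
  have h : ∀ {β : Type} [TEnc β] (l : List β), l.length ≤ sz l := by
    intro β _ l
    induction l with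
    | nil => simp
    | cons a l ih =>
      rw [sz_list_cons, List.length_cons]
      omega
  have h1 := h (tab L)
  rw [bits_length]
  unfold tab at h1 ⊢
  rw [List.length_map] at h1
  exact h1

/-- computing `AVOIDS` for the instances of the reduction -/
theorem fpt_avoids {𝒞 : List (Finset (ℝ × ℝ))} (h𝒞 : IsObst 𝒞) (hF : FptFromOrientations 𝒞) :
    FptTime (fun x : Inp => x.2) (fun x => AVOIDS 𝒞 (conf (red x).1)) := by
  obtain ⟨M, h, p, hh, hM⟩ := hF
  rw [fptTime_iff]
  let ea : Inp → List Bool := fun x => bits (tab (red x).1)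
  have hconf : ∀ L, (L.map toR).toFinset = conf L := fun L => rfl
  have h1 : ∀ x : Inp, TmRuns M (ea x) (bits (AVOIDS 𝒞 (conf (red x).1)))
      (h (AVOIDS 𝒞 (conf (red x).1)) * p.eval (red x).1.length) := by
    intro x
    have := hM _ (nodup_red x)
    rw [tab_eq, List.length_map] at this
    exact this
  obtain ⟨prog, c, hc⟩ := toCmd (ea := ea) M _ h1
  have hg : FC ea bits (fun x : Inp => x.2) (fun x => AVOIDS 𝒞 (conf (red x).1)) := by
    refine ⟨prog, fun k => maj h (7 * (k * k) + 8) + 1,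
      Polynomial.C c * (Polynomial.X + p + 1),
      add_computable ((maj_computable hh).comp cmp_bound) (Computable.const 1),
      fun x => (hc x).mono ?_⟩
    obtain ⟨_, h2, h3⟩ := red_spec h𝒞 x
    have h4 : h (AVOIDS 𝒞 (conf (red x).1)) ≤ maj h (7 * (x.2 * x.2) + 8) :=
      (le_maj h _).trans (maj_mono h (h2.trans h3))
    have h5 : p.eval (red x).1.length ≤ p.eval (ea x).length := eval_mono p (length_le_tab _)
    have h6 := Nat.mul_le_mul h4 h5
    simp only [Polynomial.eval_mul, Polynomial.eval_C, Polynomial.eval_add, Polynomial.eval_X,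
      Polynomial.eval_one]
    generalize (ea x).length = l at *
    generalize Polynomial.eval l p = y at *
    generalize maj h (7 * (x.2 * x.2) + 8) = z at *
    generalize h (AVOIDS 𝒞 (conf (red x).1)) * Polynomial.eval (red x).1.length p = T at *
    have : l + T + 1 ≤ (z + 1) * (l + y + 1) := by nlinarith [Nat.zero_le (z * l)]
    calc c * (l + T + 1) ≤ c * ((z + 1) * (l + y + 1)) := Nat.mul_le_mul_left _ this
      _ = (z + 1) * (c * (l + y + 1)) := by ring
  have hf : FC (α := Inp) (β := Inp) bits ea (fun x : Inp => x.2) (fun x => x) := by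
    refine FC.of_PC _ ?_
    have h : ∀ {β : Type} [TEnc β] {g : β → Inp}, Poly g → Poly (fun b => (red (g b)).1) :=
      fun hg => NPC.Poly.fst (p_red.comp hg)
    exact p_tab (h NPC.Poly.id)
  exact FC.comp (κ' := fun x : Inp => x.2) (f := fun x : Inp => x) hg hf (G := fun k => k)
    Computable.id (fun _ => le_rfl)

theorem collapse {𝒞 : List (Finset (ℝ × ℝ))} (h𝒞 : IsObst 𝒞) (hF : FptFromOrientations 𝒞) :
    IsFpt (fun x : Inp => x.2) HasClique := by
  refine ⟨fun x => decide ((red x).2 ≤ AVOIDS 𝒞 (conf (red x).1)), ?_, fun x => ?_⟩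
  · have h1 : Poly (fun x : Inp => (red x).2) := NPC.Poly.snd p_red
    have h2 := FptTime.pair (κ := fun x : Inp => x.2) (FptTime.of_poly h1) (fpt_avoids h𝒞 hF)
    have h3 : Poly (fun y : ℕ × ℕ => decide (y.1 ≤ y.2)) := by fun_prop
    exact FptTime.poly_comp h3 h2
  · rw [decide_eq_true_eq]
    exact (red_spec h𝒞 x).1.symm

end Pool.Agent.V11225.AV
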