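import Pool.Agent.V11225.AV.Obst

/-!
# Points in far apart columns: orientations

A code `(c, d, y)` stands for the point `(B ^ c + d, y)`: it is in the column `c`, has the offset
`d` and the height `y`.
-/

namespace Pool.Agent.V11225.AV

/-- codes of points: column, offset, height -/
abbrev Cd := ℕ × ℕ × ℕ

def D (x1 y1 x2 y2 x3 y3 : ℤ) : ℤ := x1 * y2 - x1 * y3 + x2 * y3 - x2 * y1 + x3 * y1 - x3 * y2

/-- the point of a code -/
def pt (B : ℕ) (p : Cd) : ℕ × ℕ := (B ^ p.1 + p.2.1, p.2.2)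

/-- the determinant of three codes -/
def DD (B : ℕ) (p q r : Cd) : ℤ :=
  D ((B : ℤ) ^ p.1 + p.2.1) p.2.2 ((B : ℤ) ^ q.1 + q.2.1) q.2.2 ((B : ℤ) ^ r.1 + r.2.1) r.2.2

/-- the orientation of three codes -/
noncomputable def sg (B : ℕ) (p q r : Cd) : SignType := -SignType.sign (DD B p q r)

theorem sign_cast (z : ℤ) : SignType.sign (z : ℝ) = SignType.sign z := by
  rcases lt_trichotomy z 0 with h | h | h
  · rw [sign_neg h, sign_neg (by exact_mod_cast h)]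
  · subst h; simp
  · rw [sign_pos h, sign_pos (by exact_mod_cast h)]

theorem ori_pt (B : ℕ) (p q r : Cd) :
    ori (toR (pt B p)) (toR (pt B q)) (toR (pt B r)) = sg B p q r := by
  unfold ori sg
  rw [← sign_cast]
  congr 2
  unfold DD D toR pt
  push_cast
  ring

theorem sg_eq_zero {B : ℕ} {p q r : Cd} : sg B p q r = 0 ↔ DD B p q r = 0 := by
  have h : ∀ s : SignType, -s = 0 ↔ s = 0 := by decide
  unfold sg
  rw [h, sign_eq_zero_iff]

/-- the leading coefficient -/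
def K (c1 c2 c3 : ℕ) (y1 y2 y3 : ℤ) : ℤ :=
  (if c1 = max c1 (max c2 c3) then y2 - y3 else 0) + (if c2 = max c1 (max c2 c3) then y3 - y1 else 0)
    + (if c3 = max c1 (max c2 c3) then y1 - y2 else 0)

theorem K_ne {c1 c2 c3 : ℕ} {y1 y2 y3 : ℤ} (h12 : y1 ≠ y2) (h23 : y2 ≠ y3) (h13 : y1 ≠ y3)
    (hc : ¬ (c1 = c2 ∧ c2 = c3)) : K c1 c2 c3 y1 y2 y3 ≠ 0 := by
  unfold K
  split_ifs <;> omega

theorem term {B w c m d : ℕ} (hB : 1 ≤ B) (hc : c ≤ m) (hm : 1 ≤ m) (hd : d ≤ w) :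
    ∃ r : ℤ, 0 ≤ r ∧ r ≤ (B : ℤ) ^ (m - 1) * (1 + w) ∧
      (B : ℤ) ^ c + d = (if c = m then (B : ℤ) ^ m else 0) + r := by
  have hB' : (1 : ℤ) ≤ B := by exact_mod_cast hB
  have h1 : (1 : ℤ) ≤ (B : ℤ) ^ (m - 1) := one_le_pow₀ hB'
  have hd' : (d : ℤ) ≤ w := by exact_mod_cast hd
  have hd0 : (0 : ℤ) ≤ d := Int.natCast_nonneg d
  have hw0 : (0 : ℤ) ≤ w := Int.natCast_nonneg w
  split_ifs with h
  · subst h
    refine ⟨d, hd0, ?_, rfl⟩
    nlinarith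
  · have h2 : (B : ℤ) ^ c ≤ (B : ℤ) ^ (m - 1) := pow_le_pow_right₀ hB' (by omega)
    refine ⟨(B : ℤ) ^ c + d, by positivity, ?_, by ring⟩
    nlinarith

theorem sg_eq {B w H : ℕ} (hB : 3 * (1 + w) * H < B) {p q r : Cd} (hp : 1 ≤ p.1)
    (hdp : p.2.1 ≤ w) (hdq : q.2.1 ≤ w) (hdr : r.2.1 ≤ w) (hyp : p.2.2 ≤ H) (hyq : q.2.2 ≤ H)
    (hyr : r.2.2 ≤ H) (hK : K p.1 q.1 r.1 p.2.2 q.2.2 r.2.2 ≠ 0) :
    sg B p q r = -SignType.sign (K p.1 q.1 r.1 p.2.2 q.2.2 r.2.2) := by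
  obtain ⟨c1, d1, y1⟩ := p
  obtain ⟨c2, d2, y2⟩ := q
  obtain ⟨c3, d3, y3⟩ := r
  simp only at *
  unfold sg
  congr 1
  set m := max c1 (max c2 c3) with hm
  have hm1 : 1 ≤ m := hp.trans (le_max_left _ _)
  have hB1 : 1 ≤ B := by omega
  obtain ⟨r1, h10, h1R, h1⟩ := term (B := B) (w := w) hB1 (le_max_left c1 (max c2 c3)) hm1 hdp
  obtain ⟨r2, h20, h2R, h2⟩ := term (B := B) (w := w) hB1
    ((le_max_left c2 c3).trans (le_max_right c1 _)) hm1 hdq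
  obtain ⟨r3, h30, h3R, h3⟩ := term (B := B) (w := w) hB1
    ((le_max_right c2 c3).trans (le_max_right c1 _)) hm1 hdr
  rw [← hm] at h1 h2 h3 h1R h2R h3R
  set R : ℤ := (B : ℤ) ^ (m - 1) * (1 + w) with hR
  have hR0 : 0 ≤ R := by positivity
  have hH0 : (0 : ℤ) ≤ H := Int.natCast_nonneg H
  have hbd : ∀ {r a b : ℤ}, 0 ≤ r → r ≤ R → 0 ≤ a → a ≤ H → 0 ≤ b → b ≤ H →
      |r * (a - b)| ≤ R * H := by
    intro r a b h0 h1 ha ha' hb hb'
    rw [abs_mul, abs_of_nonneg h0]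
    have : |a - b| ≤ H := by rw [abs_le]; constructor <;> linarith
    exact mul_le_mul h1 this (abs_nonneg _) hR0
  have z1 : (0 : ℤ) ≤ y1 := Int.natCast_nonneg _
  have z2 : (0 : ℤ) ≤ y2 := Int.natCast_nonneg _
  have z3 : (0 : ℤ) ≤ y3 := Int.natCast_nonneg _
  have w1 : (y1 : ℤ) ≤ H := by exact_mod_cast hyp
  have w2 : (y2 : ℤ) ≤ H := by exact_mod_cast hyq
  have w3 : (y3 : ℤ) ≤ H := by exact_mod_cast hyr
  have e1 := hbd h10 h1R z2 w2 z3 w3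
  have e2 := hbd h20 h2R z3 w3 z1 w1
  have e3 := hbd h30 h3R z1 w1 z2 w2
  have hpow : (B : ℤ) ^ m = (B : ℤ) ^ (m - 1) * B := by
    rw [← pow_succ, Nat.sub_add_cancel hm1]
  have hlt : 3 * (R * H) < (B : ℤ) ^ m := by
    have h4 : (3 * (1 + w) * H : ℤ) < B := by exact_mod_cast hB
    have h5 : (1 : ℤ) ≤ (B : ℤ) ^ (m - 1) := one_le_pow₀ (by exact_mod_cast hB1)
    rw [hpow, hR]
    nlinarith
  have hDD : DD B (c1, d1, y1) (c2, d2, y2) (c3, d3, y3) =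
      (B : ℤ) ^ m * K c1 c2 c3 y1 y2 y3 + (r1 * (y2 - y3) + r2 * (y3 - y1) + r3 * (y1 - y2)) := by
    unfold DD D K
    simp only
    rw [h1, h2, h3, ← hm]
    split_ifs <;> ring
  rw [hDD]
  have hE : |r1 * (y2 - y3) + r2 * (y3 - y1) + r3 * (y1 - y2)| < (B : ℤ) ^ m := by
    refine lt_of_le_of_lt ?_ hlt
    calc _ ≤ |r1 * ((y2 : ℤ) - y3) + r2 * (y3 - y1)| + |r3 * ((y1 : ℤ) - y2)| := abs_add_le _ _
      _ ≤ |r1 * ((y2 : ℤ) - y3)| + |r2 * ((y3 : ℤ) - y1)| + |r3 * ((y1 : ℤ) - y2)| := by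
        have := abs_add_le (r1 * ((y2 : ℤ) - y3)) (r2 * (y3 - y1))
        linarith
      _ ≤ 3 * (R * H) := by linarith
  obtain ⟨hE1, hE2⟩ := abs_lt.1 hE
  have hBm : (0 : ℤ) < (B : ℤ) ^ m := by positivity
  rcases lt_or_gt_of_ne hK with h | h
  · rw [sign_neg h, sign_neg]
    have : (B : ℤ) ^ m * K c1 c2 c3 y1 y2 y3 ≤ (B : ℤ) ^ m * (-1) :=
      mul_le_mul_of_nonneg_left (by omega) hBm.le
    linarith
  · rw [sign_pos h, sign_pos]
    have : (B : ℤ) ^ m * 1 ≤ (B : ℤ) ^ m * K c1 c2 c3 y1 y2 y3 :=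
      mul_le_mul_of_nonneg_left (by omega) hBm.le
    linarith

/-- three codes in the same column -/
theorem DD_col (B c d1 d2 d3 y1 y2 y3 : ℕ) : DD B (c, d1, y1) (c, d2, y2) (c, d3, y3) =
    D d1 y1 d2 y2 d3 y3 := by
  unfold DD D
  simp only
  ring

/-- two points of the same height -/
theorem DD_height12 (B : ℕ) {p q r : Cd} (h : p.2.2 = q.2.2) : DD B p q r =
    (((B : ℤ) ^ p.1 + p.2.1) - ((B : ℤ) ^ q.1 + q.2.1)) * ((p.2.2 : ℤ) - r.2.2) := by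
  unfold DD D
  rw [h]
  ring

theorem DD_rot (B : ℕ) (p q r : Cd) : DD B p q r = DD B q r p := by
  unfold DD D; ring

theorem DD_swap (B : ℕ) (p q r : Cd) : DD B p q r = - DD B q p r := by
  unfold DD D; ring

/-! ### Uniqueness of expansions in a large basis -/

theorem base_lt {G : ℤ} (hG : 1 ≤ G) (k : ℕ) {f : ℕ → ℤ} (hf : ∀ r, |f r| < G) :
    |∑ r ∈ Finset.range k, f r * G ^ r| < G ^ k := by
  induction k with
  | zero => simp
  | succ k ih =>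
    rw [Finset.sum_range_succ]
    have h1 : |f k * G ^ k| ≤ (G - 1) * G ^ k := by
      rw [abs_mul, abs_of_nonneg (pow_nonneg (by omega : (0 : ℤ) ≤ G) k)]
      exact mul_le_mul_of_nonneg_right (by have := hf k; omega) (pow_nonneg (by omega) k)
    calc _ ≤ |∑ r ∈ Finset.range k, f r * G ^ r| + |f k * G ^ k| := abs_add_le _ _
      _ < G ^ k + (G - 1) * G ^ k := by linarith
      _ = G ^ (k + 1) := by ring

theorem base_zero {G : ℤ} (hG : 1 ≤ G) : ∀ (k : ℕ) {f : ℕ → ℤ}, (∀ r, |f r| < G) →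
    ∑ r ∈ Finset.range k, f r * G ^ r = 0 → ∀ r < k, f r = 0 := by
  intro k
  induction k with
  | zero => intro f _ _ r hr; omega
  | succ k ih =>
    intro f hf h
    rw [Finset.sum_range_succ] at h
    have h1 := base_lt hG k hf
    have h2 : f k = 0 := by
      by_contra hne
      have h3 : |f k * G ^ k| = |∑ r ∈ Finset.range k, f r * G ^ r| := by
        have : f k * G ^ k = -∑ r ∈ Finset.range k, f r * G ^ r := by linarith
        rw [this, abs_neg]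
      have h4 : G ^ k ≤ |f k * G ^ k| := by
        rw [abs_mul, abs_of_nonneg (pow_nonneg (by omega : (0 : ℤ) ≤ G) k)]
        have : 1 ≤ |f k| := Int.one_le_abs hne
        nlinarith [pow_nonneg (by omega : (0 : ℤ) ≤ G) k]
      linarith
    rw [h2] at h
    intro r hr
    rcases Nat.lt_succ_iff_lt_or_eq.1 hr with h3 | h3
    · exact ih hf (by linarith) r h3
    · rw [h3]; exact h2

/-- multiplicity of an index in a pair -/
def mu (r i j : ℕ) : ℤ := (if r = i then 1 else 0) + (if r = j then 1 else 0)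

theorem mu_nonneg (r i j : ℕ) : 0 ≤ mu r i j := by unfold mu; split_ifs <;> norm_num

theorem mu_le (r i j : ℕ) : mu r i j ≤ 2 := by unfold mu; split_ifs <;> norm_num

theorem sum_mu {k i j : ℕ} (hi : i < k) (hj : j < k) (G : ℤ) :
    ∑ r ∈ Finset.range k, mu r i j * G ^ r = G ^ i + G ^ j := by
  unfold mu
  simp only [add_mul, ite_mul, one_mul, zero_mul]
  rw [Finset.sum_add_distrib, Finset.sum_ite_eq' , Finset.sum_ite_eq']
  simp [hi, hj]

/-- height of a family line -/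
def hg (G i j : ℕ) : ℕ := G ^ (i + 1) + G ^ (j + 1)

theorem comb_zero {G k : ℕ} {α β γ : ℤ} (hG : 2 * (|α| + |β| + |γ|) < G)
    {i1 j1 i2 j2 i3 j3 : ℕ} (h1 : i1 < k) (h1' : j1 < k) (h2 : i2 < k) (h2' : j2 < k)
    (h3 : i3 < k) (h3' : j3 < k) (h : α * hg G i1 j1 + β * hg G i2 j2 + γ * hg G i3 j3 = 0) :
    ∀ r < k, α * mu r i1 j1 + β * mu r i2 j2 + γ * mu r i3 j3 = 0 := by
  have hG1 : (1 : ℤ) ≤ G := by
    have := abs_nonneg α
    have := abs_nonneg β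
    have := abs_nonneg γ
    omega
  refine base_zero hG1 k (fun r => ?_) ?_
  · have hb : ∀ (x : ℤ) (i j : ℕ), |x * mu r i j| ≤ 2 * |x| := by
      intro x i j
      rw [abs_mul, abs_of_nonneg (mu_nonneg r i j)]
      have := mul_le_mul_of_nonneg_left (mu_le r i j) (abs_nonneg x)
      linarith
    have e1 := hb α i1 j1
    have e2 := hb β i2 j2
    have e3 := hb γ i3 j3
    have e4 := abs_add_le (α * mu r i1 j1 + β * mu r i2 j2) (γ * mu r i3 j3)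
    have e5 := abs_add_le (α * mu r i1 j1) (β * mu r i2 j2)
    linarith
  · have e : ∑ r ∈ Finset.range k,
        (α * mu r i1 j1 + β * mu r i2 j2 + γ * mu r i3 j3) * (G : ℤ) ^ r =
        α * (∑ r ∈ Finset.range k, mu r i1 j1 * (G : ℤ) ^ r) +
        β * (∑ r ∈ Finset.range k, mu r i2 j2 * (G : ℤ) ^ r) +
        γ * (∑ r ∈ Finset.range k, mu r i3 j3 * (G : ℤ) ^ r) := by
      rw [Finset.mul_sum, Finset.mul_sum, Finset.mul_sum, ← Finset.sum_add_distrib,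
        ← Finset.sum_add_distrib]
      exact Finset.sum_congr rfl fun r _ => by ring
    rw [e, sum_mu h1 h1', sum_mu h2 h2', sum_mu h3 h3']
    unfold hg at h
    push_cast at h
    have h4 : (G : ℤ) * (α * ((G : ℤ) ^ i1 + (G : ℤ) ^ j1) + β * ((G : ℤ) ^ i2 + (G : ℤ) ^ j2) +
        γ * ((G : ℤ) ^ i3 + (G : ℤ) ^ j3)) = 0 := by
      rw [← h]; ring
    rcases mul_eq_zero.1 h4 with h5 | h5
    · omega
    · exact h5

/-- `(i2, j2)` is in the middle between `(i1, j1)` and `(i3, j3)` -/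
def Mid (i2 j2 i1 j1 i3 j3 : ℕ) : Prop :=
  i2 < j2 ∧ ((i1 = i2 ∧ j1 = i2 ∧ i3 = j2 ∧ j3 = j2) ∨ (i1 = j2 ∧ j1 = j2 ∧ i3 = i2 ∧ j3 = i2))

/-- related triples of pairs -/
def Rel (i1 j1 i2 j2 i3 j3 : ℕ) : Prop :=
  Mid i1 j1 i2 j2 i3 j3 ∨ Mid i2 j2 i1 j1 i3 j3 ∨ Mid i3 j3 i1 j1 i2 j2

theorem mid_of {k : ℕ} {α β γ : ℤ} (hα : 0 < α) (hβ : β < 0) (hγ : 0 < γ)
    {i1 j1 i2 j2 i3 j3 : ℕ} (h1 : i1 < k) (h1' : j1 < k)
    (h3 : i3 < k) (h3' : j3 < k) (l1 : i1 ≤ j1) (l2 : i2 ≤ j2) (l3 : i3 ≤ j3)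
    (h : ∀ r < k, α * mu r i1 j1 + β * mu r i2 j2 + γ * mu r i3 j3 = 0)
    (n12 : ¬ (i1 = i2 ∧ j1 = j2)) (n23 : ¬ (i2 = i3 ∧ j2 = j3)) (n13 : ¬ (i1 = i3 ∧ j1 = j3)) :
    Mid i2 j2 i1 j1 i3 j3 := by
  have key : ∀ r < k, (0 < mu r i1 j1 ∨ 0 < mu r i3 j3) → r = i2 ∨ r = j2 := by
    intro r hr h0
    by_contra hne
    push Not at hne
    have hz : mu r i2 j2 = 0 := by unfold mu; rw [if_neg hne.1, if_neg hne.2]; rfl
    have h4 := h r hr
    rw [hz] at h4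
    have h5 := mul_nonneg hα.le (mu_nonneg r i1 j1)
    have h6 := mul_nonneg hγ.le (mu_nonneg r i3 j3)
    rcases h0 with h0 | h0
    · have := mul_pos hα h0
      linarith
    · have := mul_pos hγ h0
      linarith
  have p1 : 0 < mu i1 i1 j1 := by unfold mu; split_ifs <;> norm_num at *
  have p2 : 0 < mu j1 i1 j1 := by unfold mu; split_ifs <;> norm_num at *
  have p3 : 0 < mu i3 i3 j3 := by unfold mu; split_ifs <;> norm_num at *
  have p4 : 0 < mu j3 i3 j3 := by unfold mu; split_ifs <;> norm_num at *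
  have q1 := key i1 h1 (Or.inl p1)
  have q2 := key j1 h1' (Or.inl p2)
  have q3 := key i3 h3 (Or.inr p3)
  have q4 := key j3 h3' (Or.inr p4)
  unfold Mid
  omega

theorem rel_of {k : ℕ} {α β γ : ℤ} (hα : α ≠ 0) (hβ : β ≠ 0) (hγ : γ ≠ 0) (hs : α + β + γ = 0)
    {i1 j1 i2 j2 i3 j3 : ℕ} (h1 : i1 < k) (h1' : j1 < k) (h2 : i2 < k) (h2' : j2 < k)
    (h3 : i3 < k) (h3' : j3 < k) (l1 : i1 ≤ j1) (l2 : i2 ≤ j2) (l3 : i3 ≤ j3)
    (h : ∀ r < k, α * mu r i1 j1 + β * mu r i2 j2 + γ * mu r i3 j3 = 0)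
    (n12 : ¬ (i1 = i2 ∧ j1 = j2)) (n23 : ¬ (i2 = i3 ∧ j2 = j3)) (n13 : ¬ (i1 = i3 ∧ j1 = j3)) :
    Rel i1 j1 i2 j2 i3 j3 := by
  have hneg : ∀ r < k, -α * mu r i1 j1 + -β * mu r i2 j2 + -γ * mu r i3 j3 = 0 := by
    intro r hr
    have := h r hr
    linarith
  -- middle is 2
  have m2 : (0 < α ∧ β < 0 ∧ 0 < γ) ∨ (α < 0 ∧ 0 < β ∧ γ < 0) → Mid i2 j2 i1 j1 i3 j3 := by
    rintro (⟨a, b, c⟩ | ⟨a, b, c⟩)
    · exact mid_of a b c h1 h1' h3 h3' l1 l2 l3 h n12 n23 n13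
    · exact mid_of (by omega : 0 < -α) (by omega : -β < 0) (by omega : 0 < -γ) h1 h1' h3 h3'
        l1 l2 l3 hneg n12 n23 n13
  have m1 : (0 < β ∧ α < 0 ∧ 0 < γ) ∨ (β < 0 ∧ 0 < α ∧ γ < 0) → Mid i1 j1 i2 j2 i3 j3 := by
    rintro (⟨a, b, c⟩ | ⟨a, b, c⟩)
    · exact mid_of a b c h2 h2' h3 h3' l2 l1 l3 (fun r hr => by linarith [h r hr])
        (by tauto) (by tauto) (by tauto)
    · exact mid_of (by omega : 0 < -β) (by omega : -α < 0) (by omega : 0 < -γ) h2 h2' h3 h3'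
        l2 l1 l3 (fun r hr => by linarith [h r hr]) (by tauto) (by tauto) (by tauto)
  have m3 : (0 < α ∧ γ < 0 ∧ 0 < β) ∨ (α < 0 ∧ 0 < γ ∧ β < 0) → Mid i3 j3 i1 j1 i2 j2 := by
    rintro (⟨a, b, c⟩ | ⟨a, b, c⟩)
    · exact mid_of a b c h1 h1' h2 h2' l1 l3 l2 (fun r hr => by linarith [h r hr])
        (by tauto) (by tauto) (by tauto)
    · exact mid_of (by omega : 0 < -α) (by omega : -γ < 0) (by omega : 0 < -β) h1 h1' h2 h2'
        l1 l3 l2 (fun r hr => by linarith [h r hr]) (by tauto) (by tauto) (by tauto)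
  unfold Rel
  rcases lt_or_gt_of_ne hα with a | a <;> rcases lt_or_gt_of_ne hβ with b | b <;>
    rcases lt_or_gt_of_ne hγ with c | c
  · omega
  · exact Or.inr (Or.inr (m3 (Or.inr ⟨a, c, b⟩)))
  · exact Or.inr (Or.inl (m2 (Or.inr ⟨a, b, c⟩)))
  · exact Or.inl (m1 (Or.inl ⟨b, a, c⟩))
  · exact Or.inl (m1 (Or.inr ⟨b, a, c⟩))
  · exact Or.inr (Or.inl (m2 (Or.inl ⟨a, b, c⟩)))
  · exact Or.inr (Or.inr (m3 (Or.inl ⟨a, c, b⟩)))
  · omega

/-- heights of different pairs are different -/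
theorem hg_inj {G k : ℕ} (hG : 4 < G) {i1 j1 i2 j2 : ℕ} (h1 : i1 < k) (h1' : j1 < k)
    (h2 : i2 < k) (h2' : j2 < k) (l1 : i1 ≤ j1) (l2 : i2 ≤ j2) (h : hg G i1 j1 = hg G i2 j2) :
    i1 = i2 ∧ j1 = j2 := by
  have h3 := comb_zero (G := G) (k := k) (α := 1) (β := -1) (γ := 0) (by
    simp only [abs_neg, abs_one, abs_zero]
    have : (4 : ℤ) < G := by exact_mod_cast hG
    linarith) h1 h1' h2 h2' h2 h2' (by rw [h]; ring)
  have key : ∀ r < k, (r = i1 ∨ r = j1) ↔ (r = i2 ∨ r = j2) := by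
    intro r hr
    have e := h3 r hr
    have q : ∀ i j, 0 < mu r i j ↔ (r = i ∨ r = j) := by
      intro i j
      unfold mu
      constructor
      · intro h0
        by_contra hne
        push Not at hne
        rw [if_neg hne.1, if_neg hne.2] at h0
        omega
      · rintro (h0 | h0)
        · rw [if_pos h0]
          split_ifs <;> norm_num
        · rw [if_pos h0]
          split_ifs <;> norm_num
    rw [← q, ← q]
    constructor <;> intro h5 <;> linarith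
  have e1 := (key i1 h1).1 (Or.inl rfl)
  have e2 := (key j1 h1').1 (Or.inr rfl)
  have e3 := (key i2 h2).2 (Or.inl rfl)
  have e4 := (key j2 h2').2 (Or.inr rfl)
  omega

end Pool.Agent.V11225.AV
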