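import Pool.Agent.V11225.AV.Sound

/-!
# The equivalence, for abstract parameters
-/

namespace Pool.Agent.V11225.AV

open Finset

theorem noBad_empty {X : Type} (o : X → X → X → SignType) : NoBad o (∅ : Set X) :=
  ⟨fun _ _ h => absurd (h 0) (by simp), fun _ _ h => absurd (h (Sum.inr 0)) (by simp),
    fun _ _ h => absurd (h (0, 0)) (by simp)⟩

/-- a list of obstacles for the three patterns -/
def IsObst (𝒞 : List (Finset (ℝ × ℝ))) : Prop :=
  ∀ S : Finset (ℝ × ℝ), Avoids 𝒞 S ↔ NoBad ori (S : Set (ℝ × ℝ))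

variable {𝒞 : List (Finset (ℝ × ℝ))}

theorem le_avoids_iff (h𝒞 : IsObst 𝒞) {B : ℕ} {T : Finset Cd}
    (hinj : Set.InjOn (fun q => toR (pt B q)) (T : Set Cd)) {m : ℕ} :
    m ≤ AVOIDS 𝒞 (T.image fun q => toR (pt B q)) ↔
      ∃ S ⊆ T, m ≤ S.card ∧ NoBad (sg B) (S : Set Cd) := by
  classical
  have hne : ((T.image fun q => toR (pt B q)).powerset.filter fun S' => Avoids 𝒞 S').Nonempty := by
    refine ⟨∅, ?_⟩
    rw [mem_filter, mem_powerset]
    refine ⟨empty_subset _, (h𝒞 ∅).2 ?_⟩
    rw [Finset.coe_empty]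
    exact noBad_empty _
  constructor
  · intro h
    obtain ⟨S', hS', he⟩ := Finset.exists_mem_eq_sup _ hne Finset.card
    rw [mem_filter, mem_powerset] at hS'
    have h2 : m ≤ S'.card := by
      rw [← he]
      unfold AVOIDS at h
      convert h using 3
    let S := T.filter fun q => toR (pt B q) ∈ S'
    have hST : S ⊆ T := filter_subset _ _
    have hi : S.image (fun q => toR (pt B q)) = S' := by
      ext y
      rw [mem_image]
      constructor
      · rintro ⟨q, hq, rfl⟩
        exact (mem_filter.1 hq).2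
      · intro hy
        obtain ⟨q, hq, rfl⟩ := mem_image.1 (hS'.1 hy)
        exact ⟨q, mem_filter.2 ⟨hq, hy⟩, rfl⟩
    have hinj' : Set.InjOn (fun q => toR (pt B q)) (S : Set Cd) := hinj.mono (by exact_mod_cast hST)
    refine ⟨S, hST, ?_, ?_⟩
    · rw [← Finset.card_image_of_injOn hinj', hi]
      exact h2
    · have h3 := (h𝒞 S').1 hS'.2
      rw [← hi, Finset.coe_image] at h3
      exact (noBad_image hinj' (fun a _ b _ c _ => ori_pt B a b c)).1 h3
  · rintro ⟨S, hST, hm, hN⟩
    have hinj' : Set.InjOn (fun q => toR (pt B q)) (S : Set Cd) := hinj.mono (by exact_mod_cast hST)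
    have h3 := (noBad_image (o' := ori) hinj' (fun a _ b _ c _ => ori_pt B a b c)).2 hN
    rw [← Finset.coe_image] at h3
    have h4 := (h𝒞 _).2 h3
    unfold AVOIDS
    refine le_trans ?_ (Finset.le_sup (b := S.image (fun q => toR (pt B q))) (f := Finset.card) ?_)
    · rw [Finset.card_image_of_injOn hinj']
      exact hm
    · rw [mem_filter, mem_powerset]
      exact ⟨image_subset_image hST, h4⟩

/-- the valid labels -/
def VL (M k : ℕ) : Finset Idx :=
  (({1, 3, 5, 7} : Finset ℕ) ×ˢ ((range M) ×ˢ ({0} : Finset ℕ))) ∪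
    (({2, 4, 6} : Finset ℕ) ×ˢ prs k)

theorem mem_VL {M k : ℕ} {x : Idx} : x ∈ VL M k ↔ Val M k x := by
  unfold VL Val
  rw [mem_union, mem_product, mem_product, mem_product, mem_prs, mem_range]
  simp only [mem_insert, mem_singleton]

theorem card_VL (M k : ℕ) : (VL M k).card = 4 * M + 3 * (prs k).card := by
  unfold VL
  rw [card_union_of_disjoint, card_product, card_product, card_product, card_range]
  · have e1 : ({1, 3, 5, 7} : Finset ℕ).card = 4 := by decide
    have e2 : ({2, 4, 6} : Finset ℕ).card = 3 := by decide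
    rw [e1, e2, card_singleton, mul_one]
  · rw [disjoint_left]
    intro x hx hx'
    rw [mem_product] at hx hx'
    have h1 := hx.1
    have h2 := hx'.1
    simp only [mem_insert, mem_singleton] at h1 h2
    omega

section

variable {B G M w H k n : ℕ} {a : ℕ → ℕ} {adj : ℕ → ℕ → Prop} (hP : Good B G M w H k)
  (hkn : k ≤ n) (hw : ∀ i < n, ∀ j < n, a i + a j ≤ w) {T : Finset Cd}
  (hT : ∀ q, q ∈ T ↔ InT G M k n a adj q)

include hP hkn hw hT in
theorem inj_T (hM : 1 ≤ M) : Set.InjOn (fun q => toR (pt B q)) (T : Set Cd) := by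
  intro p hp q hq h
  have b1 := inT_bd hP hkn hw ((hT p).1 hp)
  have b2 := inT_bd hP hkn hw ((hT q).1 hq)
  have hH : 1 ≤ H := hM.trans hP.hMH
  have hB := hP.hB
  have hwB : w + 1 < B := by nlinarith
  unfold toR pt at h
  simp only [Prod.mk.injEq, Nat.cast_inj] at h
  obtain ⟨h1, h2⟩ := h
  have hc : p.1 = q.1 := by
    rcases lt_trichotomy p.1 q.1 with h3 | h3 | h3
    · have := pow_col (d2 := q.2.1) hwB b1.1 b1.2.1 h3
      omega
    · exact h3
    · have := pow_col (d2 := p.2.1) hwB b2.1 b2.2.1 h3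
      omega
  rw [hc] at h1
  exact Prod.ext hc (Prod.ext (by omega) h2)

include hP hkn hw hT in
theorem main (h𝒞 : IsObst 𝒞) (hM : (prs k).card + 2 ≤ M)
    (hadj : ∀ u v, adj u v → adj v u) (hirr : ∀ u, ¬ adj u u)
    (hSid : ∀ u < n, ∀ v < n, ∀ u' < n, ∀ v' < n, a u + a v = a u' + a v' →
      (u = u' ∧ v = v') ∨ (u = v' ∧ v = u')) :
    (4 * M + 3 * (prs k).card ≤ AVOIDS 𝒞 (T.image fun q => toR (pt B q)) ↔
      ∃ f : ℕ → ℕ, (∀ i < k, f i < n) ∧ ∀ i < k, ∀ j < k, i < j → adj (f i) (f j)) ∧
    AVOIDS 𝒞 (T.image fun q => toR (pt B q)) ≤ 4 * M + 3 * (prs k).card := by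
  have hinj := inj_T hP hkn hw hT (by omega)
  refine ⟨?_, ?_⟩
  · rw [le_avoids_iff h𝒞 hinj]
    constructor
    · rintro ⟨S, hST, hm, hN⟩
      exact clique_of hP hkn hw (fun q hq => (hT q).1 (hST hq)) hN hM hm hadj hSid
    · rintro ⟨f, hf, hc⟩
      let o : ℕ → ℕ → ℕ := fun c i => if c = 4 then a (f i) else a i
      have ho : ∀ c, (c = 2 ∨ c = 4 ∨ c = 6) → ∀ i < k, ∀ j < k, o c i + o c j ≤ w := by
        intro c hc i hi j hj
        simp only [o]
        split_ifs
        · exact hw _ (hf i hi) _ (hf j hj)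
        · exact hw _ (by omega) _ (by omega)
      have finj : ∀ i < k, ∀ j < k, f i = f j → i = j := by
        intro i hi j hj h
        rcases lt_trichotomy i j with h1 | h1 | h1
        · have := hc i hi j hj h1
          rw [h] at this
          exact absurd this (hirr _)
        · exact h1
        · have := hc j hj i hi h1
          rw [h] at this
          exact absurd this (hirr _)
      have hoS : ∀ c, (c = 2 ∨ c = 4 ∨ c = 6) → ∀ i j i' j', i ≤ j → j < k → i' ≤ j' → j' < k →
          o c i + o c j = o c i' + o c j' → i = i' ∧ j = j' := by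
        intro c _ i j i' j' h1 h2 h3 h4 h5
        simp only [o] at h5
        split_ifs at h5
        · rcases hSid _ (hf i (by omega)) _ (hf j h2) _ (hf i' (by omega)) _ (hf j' h4) h5 with
            ⟨h6, h7⟩ | ⟨h6, h7⟩
          · exact ⟨finj _ (by omega) _ (by omega) h6, finj _ h2 _ h4 h7⟩
          · have e1 := finj _ (by omega) _ h4 h6
            have e2 := finj _ h2 _ (by omega) h7
            omega
        · rcases hSid i (by omega) j (by omega) i' (by omega) j' (by omega) h5 with h6 | h6 <;> omega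
      refine ⟨(VL M k).image (cd G o), ?_, ?_, ?_⟩
      · intro q hq
        obtain ⟨x, hx, rfl⟩ := mem_image.1 hq
        rw [mem_VL] at hx
        rw [hT]
        unfold cd
        rcases hx with ⟨h1, h2, h3⟩ | ⟨h1, h2, h3⟩
        · rw [if_pos (by omega)]
          exact Or.inl ⟨x.2.1, h2, h1, rfl⟩
        · rw [if_neg (by omega)]
          by_cases h4 : x.1 = 4
          · right; right
            simp only [o]
            rw [if_pos h4, if_pos h4]
            by_cases h5 : x.2.1 = x.2.2
            · exact ⟨x.2.1, x.2.2, f x.2.1, f x.2.2, h2, h3, hf _ (by omega), hf _ h3,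
                Or.inl ⟨h5, by rw [h5]⟩, h4, rfl⟩
            · exact ⟨x.2.1, x.2.2, f x.2.1, f x.2.2, h2, h3, hf _ (by omega), hf _ h3,
                Or.inr ⟨by omega, hc _ (by omega) _ h3 (by omega)⟩, h4, rfl⟩
          · right; left
            simp only [o]
            rw [if_neg h4, if_neg h4]
            exact ⟨x.2.1, x.2.2, h2, h3, by omega, rfl⟩
      · rw [Finset.card_image_of_injOn, card_VL]
        intro x hx y hy h
        exact cd_inj hP (mem_VL.1 hx) (mem_VL.1 hy) h
      · have h := noBad_star hP ho hoS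
        have e : ((VL M k).image (cd G o) : Set Cd) = cd G o '' {x | Val M k x} := by
          rw [Finset.coe_image]
          congr 1
          ext x
          exact mem_VL
        rw [e]
        exact h
  · by_contra hlt
    push Not at hlt
    obtain ⟨S, hST, hm, hN⟩ := (le_avoids_iff h𝒞 hinj).1 (Nat.succ_le_of_lt hlt)
    have := card_le_target hP hkn hw (fun q hq => (hT q).1 (hST hq)) hN hM
    omega

end

end Pool.Agent.V11225.AV
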