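import Pool.Agent.V11225.AV.Defs

/-!
# Finite properties of the orientation function are given by obstacles
-/

namespace Pool.Agent.V11225.AV

open Finset

theorem avoids_append (𝒞 𝒟 : List (Finset (ℝ × ℝ))) (S : Finset (ℝ × ℝ)) :
    Avoids (𝒞 ++ 𝒟) S ↔ Avoids 𝒞 S ∧ Avoids 𝒟 S := by
  unfold Avoids
  constructor
  · intro h
    exact ⟨fun C hC => h C (List.mem_append_left _ hC), fun C hC => h C (List.mem_append_right _ hC)⟩
  · rintro ⟨h1, h2⟩ C hC
    rcases List.mem_append.1 hC with h | h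
    · exact h1 C h
    · exact h2 C h

theorem exists_obst {ι : Type} [Fintype ι] [DecidableEq ι] [Nonempty ι]
    (Bad : (ι → ι → ι → SignType) → Prop) :
    ∃ 𝒞 : List (Finset (ℝ × ℝ)), ∀ S : Finset (ℝ × ℝ), Avoids 𝒞 S ↔
      ∀ f : ι → ℝ × ℝ, Function.Injective f → (∀ a, f a ∈ S) →
        ¬ Bad (fun a b c => ori (f a) (f b) (f c)) := by
  classical
  let Rz : (ι → ι → ι → SignType) → (ι → ℝ × ℝ) → Prop := fun χ f =>
    Function.Injective f ∧ ∀ a b c, ori (f a) (f b) (f c) = χ a b c
  let cf : (ι → ι → ι → SignType) → Finset (ℝ × ℝ) := fun χ =>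
    if h : ∃ f, Rz χ f then univ.image h.choose else ∅
  let X : Finset (ι → ι → ι → SignType) := univ.filter fun χ => Bad χ ∧ ∃ f, Rz χ f
  refine ⟨X.toList.map cf, fun S => ?_⟩
  constructor
  · intro h f hf hS hB
    let χ : ι → ι → ι → SignType := fun a b c => ori (f a) (f b) (f c)
    have hex : ∃ f, Rz χ f := ⟨f, hf, fun _ _ _ => rfl⟩
    have hX : χ ∈ X := by
      simp only [X, mem_filter, mem_univ, true_and]
      exact ⟨hB, hex⟩
    refine h (cf χ) (List.mem_map.2 ⟨χ, Finset.mem_toList.2 hX, rfl⟩) ?_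
    have hc : cf χ = univ.image hex.choose := dif_pos hex
    obtain ⟨h1, h2⟩ := hex.choose_spec
    have hg : ∀ a, Function.invFun hex.choose (hex.choose a) = a :=
      Function.leftInverse_invFun h1
    refine ⟨fun p => f (Function.invFun hex.choose p), ?_, ?_, ?_⟩
    · intro p hp q hq hpq
      rw [hc, mem_coe, mem_image] at hp hq
      obtain ⟨a, _, rfl⟩ := hp
      obtain ⟨b, _, rfl⟩ := hq
      simp only [hg] at hpq
      rw [hf hpq]
    · intro p hp
      rw [hc, mem_image] at hp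
      obtain ⟨a, _, rfl⟩ := hp
      simp only [hg]
      exact hS a
    · intro p hp q hq r hr
      rw [hc, mem_image] at hp hq hr
      obtain ⟨a, _, rfl⟩ := hp
      obtain ⟨b, _, rfl⟩ := hq
      obtain ⟨c, _, rfl⟩ := hr
      simp only [hg]
      rw [h2]
  · rintro h C hC ⟨φ, hφ, hφS, hφo⟩
    obtain ⟨χ, hχ, rfl⟩ := List.mem_map.1 hC
    have hX := Finset.mem_toList.1 hχ
    simp only [X, mem_filter, mem_univ, true_and] at hX
    obtain ⟨hB, hex⟩ := hX
    have hc : cf χ = univ.image hex.choose := dif_pos hex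
    obtain ⟨h1, h2⟩ := hex.choose_spec
    have hm : ∀ a, hex.choose a ∈ cf χ := fun a => by
      rw [hc]
      exact mem_image_of_mem _ (mem_univ a)
    refine h (fun a => φ (hex.choose a)) ?_ (fun a => hφS _ (hm a)) ?_
    · intro a b hab
      exact h1 (hφ (hm a) (hm b) hab)
    · have : (fun a b c => ori (φ (hex.choose a)) (φ (hex.choose b)) (φ (hex.choose c))) = χ := by
        funext a b c
        rw [hφo _ (hm a) _ (hm b) _ (hm c), h2]
      rw [this]
      exact hB

/-! ### The three kinds of forbidden patterns -/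

/-- five points on a line -/
def BadA (χ : Fin 5 → Fin 5 → Fin 5 → SignType) : Prop := ∀ a b c, χ a b c = 0

abbrev IB := (Bool × Fin 4) ⊕ Fin 3

/-- two lines with four points each, three further points on a line, such that two of them are
not separated by the lines through the eight points -/
def BadB (χ : IB → IB → IB → SignType) : Prop :=
  (∀ b r s t, χ (Sum.inl (b, r)) (Sum.inl (b, s)) (Sum.inl (b, t)) = 0) ∧
  χ (Sum.inr 0) (Sum.inr 1) (Sum.inr 2) = 0 ∧
  (∀ z w, χ (Sum.inl z) (Sum.inl w) (Sum.inr 0) = χ (Sum.inl z) (Sum.inl w) (Sum.inr 1)) ∧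
  (∀ z w, χ (Sum.inr 0) (Sum.inr 1) (Sum.inl z) = χ (Sum.inr 0) (Sum.inr 1) (Sum.inl w))

abbrev IC := Fin 3 × Fin 3

/-- a `3 × 3` grid whose rows and first two columns are collinear, but not the last column -/
def BadC (χ : IC → IC → IC → SignType) : Prop :=
  (∀ r, χ (r, 0) (r, 1) (r, 2) = 0) ∧ χ (0, 0) (1, 0) (2, 0) = 0 ∧ χ (0, 1) (1, 1) (2, 1) = 0 ∧
  χ (0, 2) (1, 2) (2, 2) ≠ 0

/-- no bad tuples in a set of points, for an orientation function -/
def NoBad {X : Type} (o : X → X → X → SignType) (S : Set X) : Prop :=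
  (∀ f : Fin 5 → X, Function.Injective f → (∀ a, f a ∈ S) →
    ¬ BadA (fun a b c => o (f a) (f b) (f c))) ∧
  (∀ f : IB → X, Function.Injective f → (∀ a, f a ∈ S) →
    ¬ BadB (fun a b c => o (f a) (f b) (f c))) ∧
  (∀ f : IC → X, Function.Injective f → (∀ a, f a ∈ S) →
    ¬ BadC (fun a b c => o (f a) (f b) (f c)))

/-- there is a finite list of obstacles for the three kinds of patterns -/
theorem exists_obstacles : ∃ 𝒞 : List (Finset (ℝ × ℝ)), ∀ S : Finset (ℝ × ℝ),
    Avoids 𝒞 S ↔ NoBad ori (S : Set (ℝ × ℝ)) := by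
  obtain ⟨𝒜, hA⟩ := exists_obst BadA
  obtain ⟨ℬ, hB⟩ := exists_obst BadB
  obtain ⟨𝒟, hD⟩ := exists_obst BadC
  refine ⟨𝒜 ++ (ℬ ++ 𝒟), fun S => ?_⟩
  rw [avoids_append, avoids_append, hA, hB, hD]
  rfl

/-- transfer along an injection -/
theorem noBad_image {X Y : Type} {o : X → X → X → SignType} {o' : Y → Y → Y → SignType}
    {S : Set X} {π : X → Y} (hπ : Set.InjOn π S)
    (ho : ∀ a ∈ S, ∀ b ∈ S, ∀ c ∈ S, o' (π a) (π b) (π c) = o a b c) :
    NoBad o' (π '' S) ↔ NoBad o S := by
  have key : ∀ {ι : Type} (Bad : (ι → ι → ι → SignType) → Prop),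
      (∀ f : ι → Y, Function.Injective f → (∀ a, f a ∈ π '' S) →
        ¬ Bad (fun a b c => o' (f a) (f b) (f c))) ↔
      (∀ f : ι → X, Function.Injective f → (∀ a, f a ∈ S) →
        ¬ Bad (fun a b c => o (f a) (f b) (f c))) := by
    intro ι Bad
    constructor
    · intro h f hf hS hB
      refine h (fun a => π (f a)) (fun a b hab => hf (hπ (hS a) (hS b) hab))
        (fun a => ⟨f a, hS a, rfl⟩) ?_
      have : (fun a b c => o' (π (f a)) (π (f b)) (π (f c))) =
          fun a b c => o (f a) (f b) (f c) := by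
        funext a b c
        exact ho _ (hS a) _ (hS b) _ (hS c)
      rw [this]
      exact hB
    · intro h f hf hS hB
      choose g hgS hg using hS
      refine h g (fun a b hab => hf (by rw [← hg a, ← hg b, hab])) hgS ?_
      have : (fun a b c => o' (f a) (f b) (f c)) = fun a b c => o (g a) (g b) (g c) := by
        funext a b c
        rw [← hg a, ← hg b, ← hg c]
        exact ho _ (hgS a) _ (hgS b) _ (hgS c)
      rw [← this]
      exact hB
  unfold NoBad
  rw [key, key, key]

end Pool.Agent.V11225.AV
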