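import Pool.Agent.V11225.AV.Comp3

/-!
# Large subconfigurations without obstacles give cliques
-/

namespace Pool.Agent.V11225.AV

open Finset

/-- the points of the instance -/
def InT (G M k n : ℕ) (a : ℕ → ℕ) (adj : ℕ → ℕ → Prop) (q : Cd) : Prop :=
  (∃ t < M, (q.1 = 1 ∨ q.1 = 3 ∨ q.1 = 5 ∨ q.1 = 7) ∧ q.2 = (t * t, t)) ∨
  (∃ i j, i ≤ j ∧ j < k ∧ (q.1 = 2 ∨ q.1 = 6) ∧ q.2 = (a i + a j, hg G i j)) ∨
  (∃ i j u v, i ≤ j ∧ j < k ∧ u < n ∧ v < n ∧ ((i = j ∧ u = v) ∨ (i < j ∧ adj u v)) ∧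
    q.1 = 4 ∧ q.2 = (a u + a v, hg G i j))

/-- pairs of indices -/
def prs (k : ℕ) : Finset (ℕ × ℕ) := ((range k) ×ˢ (range k)).filter fun p => p.1 ≤ p.2

theorem mem_prs {k : ℕ} {p : ℕ × ℕ} : p ∈ prs k ↔ p.1 ≤ p.2 ∧ p.2 < k := by
  unfold prs
  rw [mem_filter, mem_product, mem_range, mem_range]
  omega

theorem sg_height {B : ℕ} {p q r : Cd} (h1 : p.2.2 = q.2.2) (h2 : q.2.2 = r.2.2) :
    sg B p q r = 0 := by
  rw [sg_eq_zero, DD_height12 B h1, h1, h2]
  ring

section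

variable {B G M w H k n : ℕ} {a : ℕ → ℕ} {adj : ℕ → ℕ → Prop} (hP : Good B G M w H k)
  (hkn : k ≤ n) (hw : ∀ i < n, ∀ j < n, a i + a j ≤ w)

include hP hkn hw in
theorem inT_bd {q : Cd} (hq : InT G M k n a adj q) : 1 ≤ q.1 ∧ q.2.1 ≤ w ∧ q.2.2 ≤ H := by
  rcases hq with ⟨t, ht, h1, h2⟩ | ⟨i, j, h1, h2, h3, h4⟩ | ⟨i, j, u, v, h1, h2, h3, h4, h5, h6, h7⟩
  · rw [h2]
    exact ⟨by omega, (Nat.mul_le_mul ht.le ht.le).trans hP.hMw, ht.le.trans hP.hMH⟩
  · rw [h4]
    exact ⟨by omega, hw _ (by omega) _ (by omega), hP.hH _ (by omega) _ h2⟩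
  · rw [h7]
    exact ⟨by omega, hw _ h3 _ h4, hP.hH _ (by omega) _ h2⟩

include hP in
/-- points on a line of the ruler -/
theorem inT_ruler {q : Cd} (hq : InT G M k n a adj q) {t : ℕ} (ht : t < M) (h : q.2.2 = t) :
    (q.1 = 1 ∨ q.1 = 3 ∨ q.1 = 5 ∨ q.1 = 7) ∧ q.2 = (t * t, t) := by
  rcases hq with ⟨t', ht', h1, h2⟩ | ⟨i, j, h1, h2, h3, h4⟩ | ⟨i, j, u, v, h1, h2, h3, h4, h5, h6, h7⟩
  · rw [h2] at h
    simp only at h
    subst h
    exact ⟨h1, h2⟩
  · rw [h4] at h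
    have := hg_big hP i j
    simp only at h
    omega
  · rw [h7] at h
    have := hg_big hP i j
    simp only at h
    omega

include hP in
/-- points on a line of the family -/
theorem inT_fam {q : Cd} (hq : InT G M k n a adj q) {i j : ℕ} (hij : i ≤ j) (hj : j < k)
    (h : q.2.2 = hg G i j) :
    ((q.1 = 2 ∨ q.1 = 6) ∧ q.2 = (a i + a j, hg G i j)) ∨
    (q.1 = 4 ∧ ∃ u v, u < n ∧ v < n ∧ ((i = j ∧ u = v) ∨ (i < j ∧ adj u v)) ∧
      q.2 = (a u + a v, hg G i j)) := by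
  have h4G : 4 < G := by have := hP.hG; omega
  rcases hq with ⟨t', ht', h1, h2⟩ | ⟨i', j', h1, h2, h3, h4⟩ |
    ⟨i', j', u, v, h1, h2, h3, h4, h5, h6, h7⟩
  · rw [h2] at h
    have := hg_big hP i j
    simp only at h
    omega
  · rw [h4] at h
    obtain ⟨rfl, rfl⟩ := hg_inj h4G (lt_of_le_of_lt h1 h2) h2 (lt_of_le_of_lt hij hj) hj h1 hij h
    exact Or.inl ⟨h3, h4⟩
  · rw [h7] at h
    obtain ⟨rfl, rfl⟩ := hg_inj h4G (lt_of_le_of_lt h1 h2) h2 (lt_of_le_of_lt hij hj) hj h1 hij h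
    exact Or.inr ⟨h6, u, v, h3, h4, h5, h7⟩

/-- the tuple for the second pattern -/
def fB (t : Bool → ℕ) (p : Fin 3 → Cd) : IB → Cd
  | Sum.inl (b, r) => (2 * r.val + 1, t b * t b, t b)
  | Sum.inr s => p s

variable {S : Finset Cd} (hS : ∀ q ∈ S, InT G M k n a adj q) (hN : NoBad (sg B) (S : Set Cd))

include hP hkn hw hS hN in
theorem two_full {t0 t1 : ℕ} (ht : t0 ≠ t1) (ht0 : t0 < M) (ht1 : t1 < M)
    (hf0 : ∀ c, (c = 1 ∨ c = 3 ∨ c = 5 ∨ c = 7) → (c, t0 * t0, t0) ∈ S)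
    (hf1 : ∀ c, (c = 1 ∨ c = 3 ∨ c = 5 ∨ c = 7) → (c, t1 * t1, t1) ∈ S) {i j : ℕ}
    (hij : i ≤ j) (hj : j < k)
    {p q x : Cd} (hp : p ∈ S) (hq : q ∈ S) (hx : x ∈ S) (hpq : p ≠ q) (hqx : q ≠ x) (hpx : p ≠ x)
    (yp : p.2.2 = hg G i j) (yq : q.2.2 = hg G i j) (yx : x.2.2 = hg G i j)
    (hc : p.1 = q.1) : False := by
  have hbig := hg_big hP i j
  let t : Bool → ℕ := fun b => if b then t1 else t0
  have htM : ∀ b, t b < M := by intro b; cases b <;> simp [t, ht0, ht1]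
  have hinj : ∀ b b', t b = t b' → b = b' := by
    intro b b' h
    cases b <;> cases b' <;> simp [t] at h ⊢
    · exact ht h
    · exact ht h.symm
  have hmem : ∀ b, ∀ r : Fin 4, (2 * r.val + 1, t b * t b, t b) ∈ S := by
    intro b r
    have hr : 2 * r.val + 1 = 1 ∨ 2 * r.val + 1 = 3 ∨ 2 * r.val + 1 = 5 ∨ 2 * r.val + 1 = 7 := by
      omega
    cases b
    · exact hf0 _ hr
    · exact hf1 _ hr
  have pe : p.1 % 2 = 0 := by
    rcases inT_fam hP (hS p hp) hij hj yp with ⟨h, _⟩ | ⟨h, _⟩ <;> omega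
  let P : Fin 3 → Cd := ![p, q, x]
  have hPy : ∀ s, (P s).2.2 = hg G i j := by
    intro s
    fin_cases s
    · exact yp
    · exact yq
    · exact yx
  have hPS : ∀ s, P s ∈ S := by
    intro s
    fin_cases s
    · exact hp
    · exact hq
    · exact hx
  have hPinj : ∀ s s', P s = P s' → s = s' := by
    intro s s' h
    fin_cases s <;> fin_cases s' <;> first
      | rfl
      | exact absurd h hpq
      | exact absurd h hpq.symm
      | exact absurd h hpx
      | exact absurd h hpx.symm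
      | exact absurd h hqx
      | exact absurd h hqx.symm
  refine hN.2.1 (fB t P) ?_ ?_ ?_
  · rintro (⟨b, r⟩ | s) (⟨b', r'⟩ | s') h
    · simp only [fB, Prod.mk.injEq] at h
      obtain ⟨h1, _, h3⟩ := h
      rw [hinj _ _ h3, Fin.ext (by omega : r.val = r'.val)]
    · exfalso
      have h2 := congrArg (fun q : Cd => q.2.2) h
      simp only [fB] at h2
      have := htM b
      rw [hPy] at h2
      omega
    · exfalso
      have h2 := congrArg (fun q : Cd => q.2.2) h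
      simp only [fB] at h2
      have := htM b'
      rw [hPy] at h2
      omega
    · rw [hPinj s s' h]
  · rintro (⟨b, r⟩ | s)
    · exact hmem b r
    · exact hPS s
  · refine ⟨fun b r s u => sg_height rfl rfl,
      sg_height ((hPy 0).trans (hPy 1).symm) ((hPy 1).trans (hPy 2).symm), ?_, ?_⟩
    · rintro ⟨b, r⟩ ⟨b', r'⟩
      simp only [fB]
      change sg B _ _ p = sg B _ _ q
      by_cases hb : b = b'
      · subst hb
        unfold sg
        rw [DD_height12 B (by rfl), DD_height12 B (by rfl), yp, yq]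
      · have hne : t b ≠ t b' := fun h => hb (hinj _ _ h)
        have b1 := inT_bd hP hkn hw (hS _ (hmem b r))
        have b2 := inT_bd hP hkn hw (hS _ (hmem b' r'))
        have b3 := inT_bd hP hkn hw (hS _ hp)
        have b4 := inT_bd hP hkn hw (hS _ hq)
        have m1 := htM b
        have m2 := htM b'
        have hK := K_ne (c1 := 2 * r.val + 1) (c2 := 2 * r'.val + 1) (c3 := p.1) (y1 := t b)
          (y2 := t b') (y3 := p.2.2) (by exact_mod_cast hne)
          (by rw [yp]; exact_mod_cast (by omega : t b' ≠ hg G i j))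
          (by rw [yp]; exact_mod_cast (by omega : t b ≠ hg G i j))
          (by omega)
        have hK' := hK
        rw [yp, ← yq, hc] at hK'
        rw [sg_eq hP.hB b1.1 b1.2.1 b2.2.1 b3.2.1 b1.2.2 b2.2.2 b3.2.2 hK,
          sg_eq hP.hB b1.1 b1.2.1 b2.2.1 b4.2.1 b1.2.2 b2.2.2 b4.2.2 hK', yp, yq, hc]
    · rintro ⟨b, r⟩ ⟨b', r'⟩
      simp only [fB]
      change sg B p q _ = sg B p q _
      have m1 := htM b
      have m2 := htM b'
      unfold sg
      rw [DD_height12 B (yp.trans yq.symm), DD_height12 B (yp.trans yq.symm), sign_mul, sign_mul]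
      congr 2
      rw [sign_pos, sign_pos]
      · rw [yp]
        have : t b' < hg G i j := by omega
        have : ((t b' : ℕ) : ℤ) < hg G i j := by exact_mod_cast this
        simp only
        linarith
      · rw [yp]
        have : t b < hg G i j := by omega
        have : ((t b : ℕ) : ℤ) < hg G i j := by exact_mod_cast this
        simp only
        linarith

/-- the points of height `y` -/
def lay (S : Finset Cd) (y : ℕ) : Finset Cd := S.filter fun q => q.2.2 = y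

theorem mem_lay {S : Finset Cd} {y : ℕ} {q : Cd} : q ∈ lay S y ↔ q ∈ S ∧ q.2.2 = y := by
  unfold lay; rw [mem_filter]

include hP hS in
theorem lay_ruler {t : ℕ} (ht : t < M) :
    lay S t ⊆ ({1, 3, 5, 7} : Finset ℕ).image fun c => (c, t * t, t) := by
  intro q hq
  rw [mem_lay] at hq
  obtain ⟨h1, h2⟩ := inT_ruler hP (hS q hq.1) ht hq.2
  rw [mem_image]
  refine ⟨q.1, by simp only [mem_insert, mem_singleton]; exact h1, Prod.ext rfl h2.symm⟩

include hP hS in
theorem lay_ruler_le {t : ℕ} (ht : t < M) : (lay S t).card ≤ 4 :=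
  (card_le_card (lay_ruler hP hS ht)).trans (card_image_le.trans (by decide))

include hP hS in
theorem lay_ruler_full {t : ℕ} (ht : t < M) (h : (lay S t).card = 4) :
    ∀ c, (c = 1 ∨ c = 3 ∨ c = 5 ∨ c = 7) → (c, t * t, t) ∈ S := by
  have h1 := Finset.eq_of_subset_of_card_le (lay_ruler hP hS ht)
    (by rw [h]; exact card_image_le.trans (by decide))
  intro c hc
  have h2 : (c, t * t, t) ∈ lay S t := by
    rw [h1, mem_image]
    exact ⟨c, by simp only [mem_insert, mem_singleton]; exact hc, rfl⟩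
  exact (mem_lay.1 h2).1

include hN in
theorem lay_le (y : ℕ) : (lay S y).card ≤ 4 := by
  by_contra hc
  push Not at hc
  obtain ⟨T, hT, hcard⟩ := Finset.exists_subset_card_eq (show 5 ≤ (lay S y).card from hc)
  let e := (Finset.equivFinOfCardEq hcard).symm
  refine hN.1 (fun i => (e i : Cd)) (fun i j h => e.injective (Subtype.ext h))
    (fun i => (mem_lay.1 (hT (e i).2)).1) ?_
  intro i j l
  have h : ∀ i, (e i : Cd).2.2 = y := fun i => (mem_lay.1 (hT (e i).2)).2
  exact sg_height ((h i).trans (h j).symm) ((h j).trans (h l).symm)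

include hP hkn hw hS hN in
/-- with two full lines of the ruler, a line of the family with three points has at most one
point in each column -/
theorem fam_inj {t0 t1 : ℕ} (ht : t0 ≠ t1) (ht0 : t0 < M) (ht1 : t1 < M)
    (hf0 : (lay S t0).card = 4) (hf1 : (lay S t1).card = 4) {i j : ℕ}
    (hij : i ≤ j) (hj : j < k) (h3 : 3 ≤ (lay S (hg G i j)).card) :
    Set.InjOn (fun q : Cd => q.1) (lay S (hg G i j) : Set Cd) := by
  intro p hp q hq hpq
  by_contra hne
  have hp' := mem_lay.1 (Finset.mem_coe.1 hp)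
  have hq' := mem_lay.1 (Finset.mem_coe.1 hq)
  have h4 : 0 < (((lay S (hg G i j)).erase p).erase q).card := by
    have e1 := Finset.card_erase_of_mem (Finset.mem_coe.1 hp)
    have e2 : q ∈ (lay S (hg G i j)).erase p := mem_erase.2 ⟨fun h => hne h.symm, hq⟩
    rw [Finset.card_erase_of_mem e2]
    omega
  obtain ⟨x, hx⟩ := Finset.card_pos.1 h4
  rw [mem_erase, mem_erase] at hx
  have hx' := mem_lay.1 hx.2.2
  exact two_full hP hkn hw hS hN ht ht0 ht1 (lay_ruler_full hP hS ht0 hf0)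
    (lay_ruler_full hP hS ht1 hf1) hij hj hp'.1 hq'.1 hx'.1 hne hx.1.symm hx.2.1.symm
    hp'.2 hq'.2 hx'.2 hpq

include hP hS in
theorem fam_cols {i j : ℕ} (hij : i ≤ j) (hj : j < k) :
    (lay S (hg G i j)).image (fun q : Cd => q.1) ⊆ {2, 4, 6} := by
  intro c hc
  rw [mem_image] at hc
  obtain ⟨q, hq, rfl⟩ := hc
  rw [mem_lay] at hq
  simp only [mem_insert, mem_singleton]
  rcases inT_fam hP (hS q hq.1) hij hj hq.2 with ⟨h, _⟩ | ⟨h, _⟩ <;> omega

include hP hkn hw hS hN in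
theorem fam_le {t0 t1 : ℕ} (ht : t0 ≠ t1) (ht0 : t0 < M) (ht1 : t1 < M)
    (hf0 : (lay S t0).card = 4) (hf1 : (lay S t1).card = 4) {i j : ℕ}
    (hij : i ≤ j) (hj : j < k) : (lay S (hg G i j)).card ≤ 3 := by
  by_contra hc
  push Not at hc
  have h1 := fam_inj hP hkn hw hS hN ht ht0 ht1 hf0 hf1 hij hj (by omega)
  have h2 := Finset.card_image_of_injOn h1
  have h3 := card_le_card (fam_cols hP hS hij hj)
  have h4 : ({2, 4, 6} : Finset ℕ).card = 3 := by decide
  omega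

include hS in
theorem card_le_sum : S.card ≤ ∑ t ∈ range M, (lay S t).card +
    ∑ p ∈ prs k, (lay S (hg G p.1 p.2)).card := by
  have h1 : S ⊆ (range M).biUnion (fun t => lay S t) ∪
      (prs k).biUnion (fun p => lay S (hg G p.1 p.2)) := by
    intro q hq
    rw [mem_union, mem_biUnion, mem_biUnion]
    rcases hS q hq with ⟨t, ht, h1, h2⟩ | ⟨i, j, h1, h2, h3, h4⟩ |
      ⟨i, j, u, v, h1, h2, h3, h4, h5, h6, h7⟩
    · exact Or.inl ⟨t, mem_range.2 ht, mem_lay.2 ⟨hq, by rw [h2]⟩⟩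
    · exact Or.inr ⟨(i, j), mem_prs.2 ⟨h1, h2⟩, mem_lay.2 ⟨hq, by rw [h4]⟩⟩
    · exact Or.inr ⟨(i, j), mem_prs.2 ⟨h1, h2⟩, mem_lay.2 ⟨hq, by rw [h7]⟩⟩
  calc S.card ≤ _ := card_le_card h1
    _ ≤ _ := card_union_le _ _
    _ ≤ _ := add_le_add card_biUnion_le card_biUnion_le

include hP hkn hw hS hN in
/-- the alternative -/
theorem alt (hM : (prs k).card + 2 ≤ M) :
    S.card < 4 * M + 3 * (prs k).card ∨ (∃ t0 t1, t0 ≠ t1 ∧ t0 < M ∧ t1 < M ∧
      (lay S t0).card = 4 ∧ (lay S t1).card = 4) := by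
  by_cases h : 2 ≤ ((range M).filter fun t => (lay S t).card = 4).card
  · right
    obtain ⟨t0, h0, t1, h1, hne⟩ := Finset.one_lt_card.1 h
    rw [mem_filter, mem_range] at h0 h1
    exact ⟨t0, t1, hne, h0.1, h1.1, h0.2, h1.2⟩
  · left
    have h1 : ∑ t ∈ range M, (lay S t).card ≤ ∑ t ∈ range M, (3 +
        if (lay S t).card = 4 then 1 else 0) := by
      refine sum_le_sum fun t ht => ?_
      have := lay_ruler_le hP hS (mem_range.1 ht)
      split_ifs <;> omega
    rw [sum_add_distrib, sum_const, card_range, ← card_filter, smul_eq_mul] at h1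
    have h2 : ∑ p ∈ prs k, (lay S (hg G p.1 p.2)).card ≤ ∑ p ∈ prs k, 4 :=
      sum_le_sum fun p _ => lay_le hN _
    rw [sum_const, smul_eq_mul] at h2
    have h3 := card_le_sum hS
    omega

include hP hkn hw hS hN in
theorem card_le_target (hM : (prs k).card + 2 ≤ M) : S.card ≤ 4 * M + 3 * (prs k).card := by
  rcases alt hP hkn hw hS hN hM with h | ⟨t0, t1, ht, ht0, ht1, hf0, hf1⟩
  · exact h.le
  · have h1 : ∑ t ∈ range M, (lay S t).card ≤ ∑ t ∈ range M, 4 :=
      sum_le_sum fun t ht => lay_ruler_le hP hS (mem_range.1 ht)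
    rw [sum_const, smul_eq_mul, card_range] at h1
    have h2 : ∑ p ∈ prs k, (lay S (hg G p.1 p.2)).card ≤ ∑ p ∈ prs k, 3 :=
      sum_le_sum fun p hp => fam_le hP hkn hw hS hN ht ht0 ht1 hf0 hf1 (mem_prs.1 hp).1
        (mem_prs.1 hp).2
    rw [sum_const, smul_eq_mul] at h2
    have h3 := card_le_sum hS
    omega

include hP hkn hw hS hN in
/-- in the extremal case all lines of the family have exactly one point in each column -/
theorem fam_full (hM : (prs k).card + 2 ≤ M) (hc : 4 * M + 3 * (prs k).card ≤ S.card) {i j : ℕ}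
    (hij : i ≤ j) (hj : j < k) : ((2, a i + a j, hg G i j) : Cd) ∈ S ∧
      ((6, a i + a j, hg G i j) : Cd) ∈ S ∧
      ∃ u v, u < n ∧ v < n ∧ ((i = j ∧ u = v) ∨ (i < j ∧ adj u v)) ∧
        ((4, a u + a v, hg G i j) : Cd) ∈ S := by
  rcases alt hP hkn hw hS hN hM with h | ⟨t0, t1, ht, ht0, ht1, hf0, hf1⟩
  · omega
  have h1 : ∑ t ∈ range M, (lay S t).card ≤ ∑ t ∈ range M, 4 :=
    sum_le_sum fun t ht => lay_ruler_le hP hS (mem_range.1 ht)
  rw [sum_const, smul_eq_mul, card_range] at h1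
  have h2 : ∀ p ∈ prs k, (lay S (hg G p.1 p.2)).card ≤ 3 := fun p hp =>
    fam_le hP hkn hw hS hN ht ht0 ht1 hf0 hf1 (mem_prs.1 hp).1 (mem_prs.1 hp).2
  have h2' : ∑ p ∈ prs k, (lay S (hg G p.1 p.2)).card ≤ ∑ p ∈ prs k, 3 := sum_le_sum h2
  have h3 := card_le_sum hS
  have h4 : ∑ p ∈ prs k, (lay S (hg G p.1 p.2)).card = ∑ p ∈ prs k, 3 := by
    refine le_antisymm h2' ?_
    rw [sum_const, smul_eq_mul]
    omega
  have h5 := (Finset.sum_eq_sum_iff_of_le h2).1 h4 (i, j) (mem_prs.2 ⟨hij, hj⟩)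
  simp only at h5
  have h6 := fam_inj hP hkn hw hS hN ht ht0 ht1 hf0 hf1 hij hj (by omega)
  have h7 := Finset.card_image_of_injOn h6
  have h8 := Finset.eq_of_subset_of_card_le (fam_cols hP hS hij hj) (by
    rw [h7, h5]; decide)
  have hcol : ∀ c, c ∈ ({2, 4, 6} : Finset ℕ) → ∃ q ∈ S, q.2.2 = hg G i j ∧ q.1 = c := by
    intro c hc
    rw [← h8, mem_image] at hc
    obtain ⟨q, hq, rfl⟩ := hc
    exact ⟨q, (mem_lay.1 hq).1, (mem_lay.1 hq).2, rfl⟩
  obtain ⟨q2, m2, y2, c2⟩ := hcol 2 (by decide)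
  obtain ⟨q4, m4, y4, c4⟩ := hcol 4 (by decide)
  obtain ⟨q6, m6, y6, c6⟩ := hcol 6 (by decide)
  refine ⟨?_, ?_, ?_⟩
  · rcases inT_fam hP (hS q2 m2) hij hj y2 with ⟨_, h⟩ | ⟨h, _⟩
    · have : q2 = (2, a i + a j, hg G i j) := Prod.ext c2 h
      rw [← this]
      exact m2
    · omega
  · rcases inT_fam hP (hS q6 m6) hij hj y6 with ⟨_, h⟩ | ⟨h, _⟩
    · have : q6 = (6, a i + a j, hg G i j) := Prod.ext c6 h
      rw [← this]
      exact m6
    · omega
  · rcases inT_fam hP (hS q4 m4) hij hj y4 with ⟨h, _⟩ | ⟨_, u, v, hu, hv, huv, h⟩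
    · omega
    · refine ⟨u, v, hu, hv, huv, ?_⟩
      have : q4 = (4, a u + a v, hg G i j) := Prod.ext c4 h
      rw [← this]
      exact m4

/-- the tuple for the third pattern -/
def fC (P : Fin 3 → Fin 3 → Cd) : IC → Cd := fun x => P x.1 x.2

include hP in
theorem pow_ne {i j : ℕ} (h : i < j) : G ^ (i + 1) < G ^ (j + 1) :=
  Nat.pow_lt_pow_right (by have := hP.hG; omega) (by omega)

include hP hkn hw hS hN in
theorem mid_eq (hM : (prs k).card + 2 ≤ M) (hc : 4 * M + 3 * (prs k).card ≤ S.card) {i j : ℕ}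
    (hij : i < j) (hj : j < k) {x y z : ℕ} (hx : ((4, x, hg G i i) : Cd) ∈ S)
    (hy : ((4, y, hg G i j) : Cd) ∈ S) (hz : ((4, z, hg G j j) : Cd) ∈ S) : y + y = x + z := by
  have m1 := fam_full hP hkn hw hS hN hM hc (le_refl i) (by omega)
  have m2 := fam_full hP hkn hw hS hN hM hc hij.le hj
  have m3 := fam_full hP hkn hw hS hN hM hc (le_refl j) hj
  have hlt := pow_ne (k := k) hP hij
  have y1 : hg G i i < hg G i j := by unfold hg; omega
  have y2 : hg G i j < hg G j j := by unfold hg; omega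
  let P : Fin 3 → Fin 3 → Cd := ![![(2, a i + a i, hg G i i), (6, a i + a i, hg G i i),
    (4, x, hg G i i)], ![(2, a i + a j, hg G i j), (6, a i + a j, hg G i j),
    (4, y, hg G i j)], ![(2, a j + a j, hg G j j), (6, a j + a j, hg G j j), (4, z, hg G j j)]]
  have hPS : ∀ r s, P r s ∈ S := by
    intro r s
    fin_cases r <;> fin_cases s
    · exact m1.1
    · exact m1.2.1
    · exact hx
    · exact m2.1
    · exact m2.2.1
    · exact hy
    · exact m3.1
    · exact m3.2.1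
    · exact hz
  have hcolumn : ∀ r s, (P r s).1 = (![2, 6, 4] : Fin 3 → ℕ) s := by
    intro r s
    fin_cases r <;> fin_cases s <;> rfl
  have hheight : ∀ r s, (P r s).2.2 = (![hg G i i, hg G i j, hg G j j] : Fin 3 → ℕ) r := by
    intro r s
    fin_cases r <;> fin_cases s <;> rfl
  have hinj : Function.Injective (fC P) := by
    rintro ⟨r, s⟩ ⟨r', s'⟩ h
    unfold fC at h
    have e1 := congrArg (fun q : Cd => q.1) h
    have e2 := congrArg (fun q : Cd => q.2.2) h
    simp only at e1 e2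
    rw [hcolumn, hcolumn] at e1
    rw [hheight, hheight] at e2
    have hs : s = s' := by
      revert e1
      fin_cases s <;> fin_cases s' <;> simp
    have hr : r = r' := by
      revert e2
      fin_cases r <;> fin_cases r' <;> simp <;> omega
    rw [hs, hr]
  have h4 := hN.2.2 (fC P) hinj (fun x => hPS x.1 x.2)
  unfold BadC at h4
  have h5 : sg B (4, x, hg G i i) (4, y, hg G i j) (4, z, hg G j j) = 0 := by
    by_contra hne
    refine h4 ⟨fun r => ?_, ?_, ?_, hne⟩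
    · exact sg_height ((hheight r 0).trans (hheight r 1).symm)
        ((hheight r 1).trans (hheight r 2).symm)
    · change sg B (2, a i + a i, hg G i i) (2, a i + a j, hg G i j) (2, a j + a j, hg G j j) = 0
      rw [sg_eq_zero, DD_col]
      unfold D hg
      push_cast
      ring
    · change sg B (6, a i + a i, hg G i i) (6, a i + a j, hg G i j) (6, a j + a j, hg G j j) = 0
      rw [sg_eq_zero, DD_col]
      unfold D hg
      push_cast
      ring
  rw [sg_eq_zero, DD_col] at h5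
  have h6 : (((G : ℤ) ^ (i + 1)) - (G : ℤ) ^ (j + 1)) * ((x : ℤ) + z - (y + y)) = 0 := by
    rw [← h5]
    unfold D hg
    push_cast
    ring
  rcases mul_eq_zero.1 h6 with h7 | h7
  · exfalso
    have : ((G ^ (i + 1) : ℕ) : ℤ) < ((G ^ (j + 1) : ℕ) : ℤ) := by exact_mod_cast hlt
    push_cast at this
    linarith
  · omega

include hP hkn hw hS hN in
/-- a large subconfiguration without obstacles gives a clique -/
theorem clique_of (hM : (prs k).card + 2 ≤ M) (hc : 4 * M + 3 * (prs k).card ≤ S.card)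
    (hadj : ∀ u v, adj u v → adj v u)
    (hSid : ∀ u < n, ∀ v < n, ∀ u' < n, ∀ v' < n, a u + a v = a u' + a v' →
      (u = u' ∧ v = v') ∨ (u = v' ∧ v = u')) :
    ∃ f : ℕ → ℕ, (∀ i < k, f i < n) ∧ ∀ i < k, ∀ j < k, i < j → adj (f i) (f j) := by
  have h1 : ∀ i, ∃ u, i < k → u < n ∧ ((4, a u + a u, hg G i i) : Cd) ∈ S := by
    intro i
    by_cases hi : i < k
    · obtain ⟨_, _, u, v, hu, hv, huv, hm⟩ := fam_full hP hkn hw hS hN hM hc (le_refl i) hi
      rcases huv with ⟨_, rfl⟩ | ⟨h, _⟩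
      · exact ⟨u, fun _ => ⟨hu, hm⟩⟩
      · omega
    · exact ⟨0, fun h => absurd h hi⟩
  choose f hf using h1
  refine ⟨f, fun i hi => (hf i hi).1, fun i hi j hj hij => ?_⟩
  obtain ⟨_, _, u, v, hu, hv, huv, hm⟩ := fam_full hP hkn hw hS hN hM hc hij.le hj
  rcases huv with ⟨h, _⟩ | ⟨_, huv⟩
  · omega
  · have h2 := mid_eq hP hkn hw hS hN hM hc hij hj (hf i hi).2 hm (hf j hj).2
    rcases hSid u hu v hv (f i) (hf i hi).1 (f j) (hf j hj).1 (by omega) with ⟨rfl, rfl⟩ | ⟨rfl, rfl⟩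
    · exact huv
    · exact hadj _ _ huv

end

end Pool.Agent.V11225.AV
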