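import Pool.Agent.V11225.AV.Main
import Pool.Agent.V11225.MV.Time

/-!
# The reduction and its running time
-/

namespace Pool.Agent.V11225.AV

open Pool.Agent.NPC Pool.Agent.H633R2 Pool.Agent.V11225.MV

theorem bits_two_pow (e : ℕ) : (2 ^ e).bits = List.replicate e false ++ [true] := by
  induction e with
  | zero => simp [Nat.one_bits]
  | succ e ih =>
    rw [pow_succ, mul_comm, Nat.bit0_bits _ (by positivity), ih, List.replicate_succ]
    rfl

variable {α : Type} [TEnc α]

theorem poly_two_pow {e : α → ℕ} (he : UPoly e) : Poly (fun a => 2 ^ e a) := by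
  apply Poly.of_natBits
  have h1 : Poly (fun a => (List.replicate (e a) ()).map (fun _ => false)) :=
    NPC.Poly.map he (F := fun _ _ => false) (NPC.Poly.const false)
  have h2 : Poly (fun a => (List.replicate (e a) ()).map (fun _ => false) ++ [true]) :=
    NPC.Poly.append h1 (NPC.Poly.const _)
  refine h2.congr fun a => ?_
  rw [bits_two_pow, List.map_replicate]

attribute [local fun_prop] p_gn p_gk r_n r_k r_kk p_entry' p_adj

def gw (x : Inp) : ℕ := 8 * ((gn x + 2) * (gn x + 2) * ((gn x + 2) * (gn x + 2)))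
def gm (x : Inp) : ℕ := gk x * gk x + 2
def ga (x : Inp) (u : ℕ) : ℕ := u * (2 * (gn x * gn x) + 1) + u * u
def eG (x : Inp) : ℕ := 8 * gw x
def eB (x : Inp) : ℕ := 8 * gw x * (gn x + 1) + gw x + 3
def pG (x : Inp) (i : ℕ) : ℕ := 2 ^ (eG x * (min i (gn x) + 1))
def pB (x : Inp) (c : ℕ) : ℕ := 2 ^ (eB x * min c 7)

theorem u_gw : UPoly gw :=
  UPoly.mul (UPoly.const 8) (UPoly.mul (UPoly.mul (UPoly.add u_gn (UPoly.const 2))
    (UPoly.add u_gn (UPoly.const 2))) (UPoly.mul (UPoly.add u_gn (UPoly.const 2))
    (UPoly.add u_gn (UPoly.const 2))))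
theorem u_gm : UPoly gm := UPoly.add (UPoly.mul u_gk u_gk) (UPoly.const 2)
theorem u_eG : UPoly eG := UPoly.mul (UPoly.const 8) u_gw
theorem u_eB : UPoly eB :=
  UPoly.add (UPoly.add (UPoly.mul (UPoly.mul (UPoly.const 8) u_gw)
    (UPoly.add u_gn (UPoly.const 1))) u_gw) (UPoly.const 3)

theorem p_pG {f : α → Inp} {i : α → ℕ} (hf : Poly f) (hi : Poly i) :
    Poly (fun a => pG (f a) (i a)) := by
  unfold pG
  refine poly_two_pow (UPoly.mul (u_eG.comp hf) (UPoly.add ?_ (UPoly.const 1)))
  exact UPoly.of_le (by fun_prop) (u_gn.comp hf) (fun a => min_le_right _ _)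

theorem p_pB {f : α → Inp} {i : α → ℕ} (hf : Poly f) (hi : Poly i) :
    Poly (fun a => pB (f a) (i a)) := by
  unfold pB
  refine poly_two_pow (UPoly.mul (u_eB.comp hf) ?_)
  exact UPoly.of_le (by fun_prop) (UPoly.const 7) (fun a => min_le_right _ _)

theorem p_ga {f : α → Inp} {i : α → ℕ} (hf : Poly f) (hi : Poly i) :
    Poly (fun a => ga (f a) (i a)) := by
  unfold ga; fun_prop

theorem r_n' {f : α → Inp} (hf : Poly f) : Poly (fun a => List.range (gn (f a))) :=
  u_gn.range.comp hf
theorem r_m {f : α → Inp} (hf : Poly f) : Poly (fun a => List.range (gm (f a))) :=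
  u_gm.range.comp hf

theorem p_gm {f : α → Inp} (hf : Poly f) : Poly (fun a => gm (f a)) := u_gm.toPoly.comp hf

attribute [local fun_prop] p_pG p_pB p_ga r_n' r_m p_gm

/-- the codes of the points -/
def cl (x : Inp) : List Cd :=
  ((List.range (gm x)).flatMap fun t => [(1 : ℕ), 3, 5, 7].map fun c => (c, t * t, t)) ++
  (((List.range (gk x)).flatMap fun i => (List.range (gk x)).flatMap fun j =>
    [(2 : ℕ), 6].flatMap fun c => if i ≤ j then [(c, ga x i + ga x j, pG x i + pG x j)] else []) ++
  ((List.range (gk x)).flatMap fun i => (List.range (gk x)).flatMap fun j =>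
    (List.range (gn x)).flatMap fun u => (List.range (gn x)).flatMap fun v =>
      if i ≤ j ∧ ((i = j ∧ u = v) ∨ (i < j ∧ gAdj x u v = true)) then
        [(4, ga x u + ga x v, pG x i + pG x j)] else []))

theorem p_cl1 : Poly (fun x : Inp => ((List.range (gm x)).flatMap fun t =>
    [(1 : ℕ), 3, 5, 7].map fun c => ((c, t * t, t) : Cd))) := by fun_prop

theorem p_cl2 : Poly (fun x : Inp => ((List.range (gk x)).flatMap fun i =>
    (List.range (gk x)).flatMap fun j => [(2 : ℕ), 6].flatMap fun c =>
      if i ≤ j then [((c, ga x i + ga x j, pG x i + pG x j) : Cd)] else [])) := by fun_prop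

theorem p_cl3 : Poly (fun x : Inp => ((List.range (gk x)).flatMap fun i =>
    (List.range (gk x)).flatMap fun j =>
    (List.range (gn x)).flatMap fun u => (List.range (gn x)).flatMap fun v =>
      if i ≤ j ∧ ((i = j ∧ u = v) ∨ (i < j ∧ gAdj x u v = true)) then
        [((4, ga x u + ga x v, pG x i + pG x j) : Cd)] else [])) := by fun_prop

theorem p_cl : Poly cl := by
  unfold cl
  exact Poly.append p_cl1 (Poly.append p_cl2 p_cl3)

/-- removing repetitions -/
def dd (L : List (ℕ × ℕ)) : List (ℕ × ℕ) :=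
  ((List.range L.length).filter fun m => (List.range L.length).all fun m' =>
    !(decide (m' < m) && decide (L.getD m' (0, 0) = L.getD m (0, 0)))).map
      fun m => L.getD m (0, 0)

theorem p_dd {f : α → List (ℕ × ℕ)} (hf : Poly f) : Poly (fun a => dd (f a)) := by
  unfold dd
  have h : ∀ {β : Type} [TEnc β] {g : β → List (ℕ × ℕ)}, Poly g →
      Poly (fun b => List.range (g b).length) := fun hg => (UPoly.length hg).range
  fun_prop

theorem nodup_dd (L : List (ℕ × ℕ)) : (dd L).Nodup := by
  unfold dd
  refine List.Nodup.map_on ?_ (List.nodup_range.filter _)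
  intro m hm m' hm' h
  rw [List.mem_filter, List.all_eq_true] at hm hm'
  rcases lt_trichotomy m m' with h1 | h1 | h1
  · have := hm'.2 m hm.1
    rw [decide_eq_true h1, decide_eq_true h] at this
    simp at this
  · exact h1
  · have := hm.2 m' hm'.1
    rw [decide_eq_true h1, decide_eq_true h.symm] at this
    simp at this

theorem mem_dd {L : List (ℕ × ℕ)} {p : ℕ × ℕ} : p ∈ dd L ↔ p ∈ L := by
  unfold dd
  rw [List.mem_map]
  constructor
  · rintro ⟨m, hm, rfl⟩
    rw [List.mem_filter, List.mem_range] at hm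
    rw [List.getD_eq_getElem _ _ hm.1]
    exact List.getElem_mem _
  · intro hp
    have hex : ∃ m, m < L.length ∧ L.getD m (0, 0) = p := by
      obtain ⟨m, hm, h⟩ := List.mem_iff_getElem.1 hp
      exact ⟨m, hm, by rw [List.getD_eq_getElem _ _ hm]; exact h⟩
    classical
    refine ⟨Nat.find hex, ?_, (Nat.find_spec hex).2⟩
    rw [List.mem_filter, List.mem_range, List.all_eq_true]
    refine ⟨(Nat.find_spec hex).1, fun m' hm' => ?_⟩
    rw [List.mem_range] at hm'
    rw [Bool.not_eq_true', Bool.and_eq_false_iff, decide_eq_false_iff_not,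
      decide_eq_false_iff_not]
    by_contra hc
    push Not at hc
    exact Nat.find_min hex hc.1 ⟨hm', hc.2.trans (Nat.find_spec hex).2⟩

/-- the points -/
def pts (x : Inp) : List (ℕ × ℕ) := dd ((cl x).map fun q => (pB x q.1 + q.2.1, q.2.2))

theorem p_pts : Poly pts := by
  unfold pts
  refine p_dd ?_
  have := p_cl
  have h : ∀ {β : Type} [TEnc β] {g : β → Inp}, Poly g → Poly (fun b => cl (g b)) :=
    fun hg => p_cl.comp hg
  fun_prop

/-- the list of the pairs -/
def pl (x : Inp) : List (ℕ × ℕ) :=
  (List.range (gk x)).flatMap fun i => (List.range (gk x)).flatMap fun j =>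
    if i ≤ j then [(i, j)] else []

theorem p_pl : Poly pl := by
  unfold pl; fun_prop

theorem length_pl (x : Inp) : (pl x).length = (prs (gk x)).card := by
  have h1 : (pl x).Nodup := by
    unfold pl
    rw [List.nodup_flatMap]
    refine ⟨fun i _ => ?_, ?_⟩
    · rw [List.nodup_flatMap]
      refine ⟨fun j _ => by split_ifs <;> simp, ?_⟩
      refine List.Pairwise.imp ?_ List.nodup_range
      intro j j' hne
      simp only [Function.onFun, List.disjoint_left]
      intro p hp hp'
      split_ifs at hp hp' <;> simp at hp hp'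
      rw [hp] at hp'
      simp at hp'
      exact hne hp'
    · refine List.Pairwise.imp ?_ List.nodup_range
      intro i i' hne
      simp only [Function.onFun, List.disjoint_left]
      intro p hp hp'
      rw [List.mem_flatMap] at hp hp'
      obtain ⟨j, _, hp⟩ := hp
      obtain ⟨j', _, hp'⟩ := hp'
      split_ifs at hp hp' <;> simp at hp hp'
      rw [hp] at hp'
      simp at hp'
      exact hne hp'.1
  rw [← List.toFinset_card_of_nodup h1]
  congr 1
  ext ⟨i, j⟩
  rw [List.mem_toFinset, mem_prs]
  unfold pl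
  simp only [List.mem_flatMap, List.mem_range]
  constructor
  · rintro ⟨i', hi', j', hj', h⟩
    split_ifs at h with hle
    · simp at h
      obtain ⟨rfl, rfl⟩ := h
      exact ⟨hle, hj'⟩
    · simp at h
  · rintro ⟨h1, h2⟩
    have h1' : i ≤ j := h1
    have h2' : j < gk x := h2
    exact ⟨i, by omega, j, h2', by rw [if_pos h1']; simp⟩

/-- the target -/
def tg (x : Inp) : ℕ := 4 * gm x + 3 * (pl x).length

theorem p_tg : Poly tg := by
  unfold tg
  have h : ∀ {β : Type} [TEnc β] {g : β → Inp}, Poly g → Poly (fun b => pl (g b)) :=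
    fun hg => p_pl.comp hg
  fun_prop

/-- the reduction -/
def red (x : Inp) : List (ℕ × ℕ) × ℕ := if x.2 ≤ x.1.length then (pts x, tg x) else ([], 1)

theorem p_red : Poly red := by
  unfold red
  have h : ∀ {β : Type} [TEnc β] {g : β → Inp}, Poly g → Poly (fun b => pts (g b)) :=
    fun hg => p_pts.comp hg
  have h' : ∀ {β : Type} [TEnc β] {g : β → Inp}, Poly g → Poly (fun b => tg (g b)) :=
    fun hg => p_tg.comp hg
  fun_prop

end Pool.Agent.V11225.AV
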